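import Pool.Agent.H459.UD.MainD

/-!
# A positive proportion of elliptic curves in every residue class (helper459)

After `UT/FinT.lean`.
-/

set_option autoImplicit false
set_option linter.all false

open Polynomial NumberField IsDedekindDomain
open scoped Classical Pointwise

namespace Pool.Agent.H459.UD

open Pool.Agent.H459.UF (Unr Deg1 fo GoodM)
open Pool.Agent.H459.UT (goodm_of)
open Pool.Agent.N783.PF
open Pool.Agent.N61.PF (pol pol_monic pol_natDegree pol_coeff0 pol_coeff1 pol_coeff2 eq_pol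
  crv_finite crv_upper ht_lower crv_of_ht exists_B)

/-- The conditions on the extension `M` of `F`, for the curve `y² = x³ + a x + b`, `p = (a, b)`. -/
structure AdmD (F M : Type) [Field F] [NumberField F] [Field M] [NumberField M] [Algebra F M]
    (Z : Set (HeightOneSpectrum (𝓞 F))) (m : ℕ) (p : 𝓞 F × 𝓞 F) : Prop where
  sig : ∀ v ∈ Z, Unr F M v ∧ Deg1 F M v
  bad : ∀ v : HeightOneSpectrum (𝓞 F), ((2 * m : ℕ) : 𝓞 F) ∈ v.asIdeal → Unr F M v ∧ Deg1 F M v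
  unr : ∀ v : HeightOneSpectrum (𝓞 F),
    (∃ t : 𝓞 F, t ^ 3 + p.1 * t + p.2 ∈ v.asIdeal) → Unr F M v
  real : ∀ σ : F →+* ℝ, 0 < σ ((4 * p.1 ^ 3 + 27 * p.2 ^ 2 : 𝓞 F) : F) ∨
    ∃ ρ : M →+* ℝ, ρ.comp (algebraMap F M) = σ

/-- The property of the curve. -/
structure RC {F : Type} [Field F] [NumberField F] (Z : Set (HeightOneSpectrum (𝓞 F))) (m : ℕ)
    (a₁ b₁ u : 𝓞 F) (p : 𝓞 F × 𝓞 F) : Prop where
  one : (m : 𝓞 F) ∣ p.1 - a₁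
  zero : (m : 𝓞 F) ∣ p.2 - b₁
  sgn : ∀ σ : F →+* ℝ, 0 < σ (u : F) * σ ((4 * p.1 ^ 3 + 27 * p.2 ^ 2 : 𝓞 F) : F)
  sel : ∀ (M : Type) [Field M] [NumberField M] [Algebra F M] [IsGalois F M] (n : ℕ),
    Module.finrank F M = 2 ^ n → AdmD F M Z m p → GoodM F M p

theorem rc_of {F : Type} [Field F] [NumberField F] {Z : Set (HeightOneSpectrum (𝓞 F))} {m : ℕ}
    {a₁ b₁ u : 𝓞 F} {B : ℕ} {f : (𝓞 F)[X]} (h : Ht 1 B f) (hirr : Irreducible (fF f))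
    (hp : PD Z m a₁ b₁ u f) : RC Z m a₁ b₁ u (f.coeff 1, f.coeff 0) := by
  have hf := eq_pol h
  have heval : ∀ t : 𝓞 F, f.eval t = t ^ 3 + f.coeff 1 * t + f.coeff 0 := by
    intro t
    conv_lhs => rw [hf]
    rw [Pool.Agent.H459.UF.pol_eval]
  refine ⟨hp.one, hp.zero, hp.sgn, ?_⟩
  intro M _ _ _ _ n hn hA
  refine goodm_of hn h hirr (hp.sel M n hn ⟨hA.sig, hA.bad, ?_, hA.real⟩)
  rintro v ⟨t, ht⟩
  rw [heval] at ht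
  exact hA.unr v ⟨t, ht⟩

theorem finD (F : Type) [Field F] [NumberField F] (F' : Type) [Field F'] [NumberField F']
    [Algebra F F'] (m : ℕ) (hm0 : 0 < m) (a₁ b₁ u : 𝓞 F) (hu : u ≠ 0)
    (hmin : ∀ v : HeightOneSpectrum (𝓞 F), ((2 * m : ℕ) : 𝓞 F) ∈ v.asIdeal →
      ¬ (a₁ ∈ v.asIdeal ^ 4 ∧ b₁ ∈ v.asIdeal ^ 6)) :
    ∃ (Z : Set (HeightOneSpectrum (𝓞 F))), Z.Finite ∧ (∀ v ∈ Z, Unr F F' v ∧ Deg1 F F' v) ∧
    (∀ v ∈ Z, ((2 * m : ℕ) : 𝓞 F) ∉ v.asIdeal) ∧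
    ∃ c : ℝ, 0 < c ∧ ∃ Y₀ : ℝ, ∀ Y : ℝ, {p : 𝓞 F × 𝓞 F | Crv Y p}.Finite ∧
      (Y₀ ≤ Y → 0 < {p : 𝓞 F × 𝓞 F | Crv Y p}.ncard ∧
        c * ({p : 𝓞 F × 𝓞 F | Crv Y p}.ncard : ℝ) ≤
          ({p : 𝓞 F × 𝓞 F | Crv Y p ∧ RC Z m a₁ b₁ u p}.ncard : ℝ)) := by
  obtain ⟨-, C, hC, hlow, hup⟩ := Pool.Agent.N490.PF.pts F
  obtain ⟨Z, hZ1, hZ2, hZ3, c, hc, B₀, hmain⟩ := mainD F F' m hm0 a₁ b₁ u hu hmin
  refine ⟨Z, hZ1, hZ2, hZ3, ?_⟩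
  set d := Module.finrank ℚ F with hd
  set B₁ : ℕ := max B₀ 1 with hB₁
  refine ⟨c / (C ^ 2 * (C ^ 2 * 2 ^ (6 * d + 2))), by positivity, 27 * (B₁ : ℝ) ^ 6, ?_⟩
  intro Y
  have hfin := crv_finite (F := F) Pool.Agent.N490.PF.pts Y
  refine ⟨hfin, ?_⟩
  intro hY
  have hB₁1 : 1 ≤ B₁ := le_max_right _ _
  have hB₁r : (1 : ℝ) ≤ B₁ := by exact_mod_cast hB₁1
  have hY27 : 27 ≤ Y := by
    have : (1 : ℝ) ≤ (B₁ : ℝ) ^ 6 := one_le_pow₀ hB₁r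
    linarith
  obtain ⟨B, hBB, hBY, hYB⟩ := exists_B B₁ Y hB₁1 hY
  have hB1 : 1 ≤ B := hB₁1.trans hBB
  obtain ⟨hfinH, hprop⟩ := hmain B ((le_max_left _ _).trans hBB)
  constructor
  · rw [Set.ncard_pos hfin]
    refine ⟨(1, 1), ⟨?_, ?_, ?_⟩⟩
    · norm_num
    · intro 𝔭 hp _ hcon
      apply hp.ne_top
      rw [Ideal.eq_top_iff_one]
      exact Ideal.pow_le_self (by norm_num) hcon.1
    · intro σ
      constructor
      · simp; linarith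
      · simp; linarith
  · have hu := crv_upper hC hup hB1 hYB
    have hl := ht_lower hC hlow hB1 hfinH
    rw [← hd] at hu hl
    have h5 : ({f : (𝓞 F)[X] | Ht 1 B f ∧ Irreducible (fF f) ∧ Min 1 f ∧
        PD Z m a₁ b₁ u f}.ncard : ℝ) ≤
        ({p : 𝓞 F × 𝓞 F | Crv Y p ∧ RC Z m a₁ b₁ u p}.ncard : ℝ) := by
      have h6 := Set.ncard_le_ncard_of_injOn (fun f : (𝓞 F)[X] => (f.coeff 1, f.coeff 0))
        (s := {f : (𝓞 F)[X] | Ht 1 B f ∧ Irreducible (fF f) ∧ Min 1 f ∧ PD Z m a₁ b₁ u f})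
        (t := {p : 𝓞 F × 𝓞 F | Crv Y p ∧ RC Z m a₁ b₁ u p})
        (fun f hf => ⟨crv_of_ht hf.1 hf.2.1 hf.2.2.1 hBY, rc_of hf.1 hf.2.1 hf.2.2.2⟩)
        (by
          intro f hf f' hf' h
          have e := Prod.mk.injEq .. ▸ h
          rw [eq_pol hf.1, eq_pol hf'.1, e.1, e.2])
        (hfin.subset fun p hp => hp.1)
      exact_mod_cast h6
    have hBd : 0 < (B : ℝ) ^ (5 * d) := by
      have : (0 : ℝ) < B := by exact_mod_cast hB1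
      positivity
    have h7 : ({p : 𝓞 F × 𝓞 F | Crv Y p}.ncard : ℝ) ≤
        (C ^ 2 * 2 ^ (6 * d + 2)) * (C ^ 2 * ({f : (𝓞 F)[X] | Ht 1 B f}.ncard : ℝ)) :=
      hu.trans (mul_le_mul_of_nonneg_left hl (by positivity))
    calc c / (C ^ 2 * (C ^ 2 * 2 ^ (6 * d + 2))) * ({p : 𝓞 F × 𝓞 F | Crv Y p}.ncard : ℝ)
        ≤ c / (C ^ 2 * (C ^ 2 * 2 ^ (6 * d + 2))) *
          ((C ^ 2 * 2 ^ (6 * d + 2)) * (C ^ 2 * ({f : (𝓞 F)[X] | Ht 1 B f}.ncard : ℝ))) :=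
          mul_le_mul_of_nonneg_left h7 (by positivity)
      _ = c * ({f : (𝓞 F)[X] | Ht 1 B f}.ncard : ℝ) := by
          field_simp
      _ ≤ _ := hprop.trans h5

end Pool.Agent.H459.UD
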