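import Pool.Agent.H459.UD.Adm2
import Pool.Agent.H459.UT.Cpt

/-!
# Lattices at the bad primes (helper459)
-/

set_option autoImplicit false
set_option linter.all false

open Polynomial IsDedekindDomain Matrix NumberField WithZero
open scoped Classical IntermediateField

namespace Pool.Agent.H459.UD

open Pool.Agent.N352.PJ (Mt)
open Pool.Agent.N783.PF (IsGen fF)
open Pool.Agent.N783.PQ (LocIm)
open Pool.Agent.N874.JM (LocF)
open Pool.Agent.H459.UF (cu cu_monic cu_deg Cub)
open Pool.Agent.H459.UT (UG LL ev_hom cub_of_gen cu_eval₂)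

section

variable {k : Type} [Field k] [CharZero k] {v : Valuation k (WithZero (Multiplicative ℤ))}

theorem le1_of_sq {x : k} (h : v (x ^ 2) ≤ 1) : v x ≤ 1 := by
  rw [map_pow] at h
  exact Pool.Agent.H459.UT.sq_le1 h

/-- Every class of a point has a lattice. -/
theorem adm_cls {π : k} (hπ : v π = WithZero.exp (-1 : ℤ)) {a b : k} (ha : v a ≤ 1) (hb : v b ≤ 1)
    {β : k[X]} (h : Cls (16 * a) (64 * b) β) :
    Adm v (16 * a) (64 * b) (AdjoinRoot.mk (cu (16 * a) (64 * b)) β) := by
  have hπ0 : π ≠ 0 := by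
    intro h0
    rw [h0, map_zero] at hπ
    exact WithZero.exp_ne_zero hπ.symm
  rcases h with rfl | ⟨x, y, hy, hxy, rfl⟩ | ⟨r, hr, rfl⟩
  · have h1 := adm_unit (v := v) (X := 1) (T := 1) (ε := 0) (δ := 0) (κ := a) ha hb one_ne_zero
      one_ne_zero (by rw [map_one]) (by rw [inv_one, map_one]) (by rw [map_one])
      (by rw [inv_one, map_one]) (by rw [map_zero]; exact zero_le_one) (by ring) (by ring) (by ring)
    have e : qd (16 * a) (64 * b) 1 (-0 / 4) 0 = AdjoinRoot.mk (cu (16 * a) (64 * b)) 1 := by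
      unfold qd
      simp
    rwa [e] at h1
  · obtain ⟨x₀, hx₀⟩ : ∃ x₀, x₀ = x / 4 := ⟨_, rfl⟩
    obtain ⟨y₀, hy₀⟩ : ∃ y₀, y₀ = y / 8 := ⟨_, rfl⟩
    have hxy0 : y₀ ^ 2 = x₀ ^ 3 + a * x₀ + b := by
      rw [hx₀, hy₀, div_pow, hxy]
      ring
    have ex : x = 4 * x₀ := by rw [hx₀]; ring
    by_cases hvx : v x₀ ≤ 1
    · have hvy : v y₀ ≤ 1 := by
        apply le1_of_sq
        rw [hxy0]
        refine (Valuation.map_add _ _ _).trans (max_le ((Valuation.map_add _ _ _).trans
          (max_le ?_ ?_)) hb)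
        · rw [map_pow]
          exact pow_le_one' hvx 3
        · rw [map_mul]
          exact mul_le_one' ha hvx
      have h1 := adm_int ha hvx hvy hxy0
      have e : qd (16 * a) (64 * b) (4 * x₀) (-1) 0 =
          AdjoinRoot.mk (cu (16 * a) (64 * b)) (C x - X) := by
        unfold qd
        congr 1
        rw [ex]
        simp
        ring
      rwa [e] at h1
    · push Not at hvx
      have hx0 : x₀ ≠ 0 := by
        intro h0
        rw [h0, map_zero] at hvx
        exact absurd hvx (not_lt.2 zero_le)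
      have hy0 : y₀ ≠ 0 := by
        rw [hy₀]
        exact div_ne_zero hy (by norm_num)
      -- valuations
      have hv : v (y₀ ^ 2) = v (x₀ ^ 3) := by
        rw [hxy0, add_assoc]
        refine Valuation.map_add_eq_of_lt_left v ?_
        refine lt_of_le_of_lt (Valuation.map_add _ _ _) (max_lt ?_ ?_)
        · rw [map_mul, map_pow]
          calc v a * v x₀ ≤ v x₀ := mul_le_of_le_one_left' ha
            _ < v x₀ ^ 3 := by
              conv_lhs => rw [← pow_one (v x₀)]
              exact pow_lt_pow_right₀ hvx (by norm_num)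
        · refine lt_of_le_of_lt hb ?_
          rw [map_pow]
          exact one_lt_pow₀ hvx (by norm_num)
      obtain ⟨t, ht⟩ : ∃ t : ℤ, v x₀ = WithZero.exp t :=
        ⟨WithZero.log _, (WithZero.exp_log ((Valuation.ne_zero_iff _).2 hx0)).symm⟩
      obtain ⟨s, hs⟩ : ∃ s : ℤ, v y₀ = WithZero.exp s :=
        ⟨WithZero.log _, (WithZero.exp_log ((Valuation.ne_zero_iff _).2 hy0)).symm⟩
      have hst : 2 * s = 3 * t := by
        rw [map_pow, map_pow, ht, hs, ← WithZero.exp_nsmul, ← WithZero.exp_nsmul] at hv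
        have := WithZero.exp_injective hv
        simpa using this
      have ht0 : 0 < t := by
        rw [ht, ← WithZero.exp_zero, WithZero.exp_lt_exp] at hvx
        exact hvx
      obtain ⟨m, hm⟩ : ∃ m : ℤ, t = 2 * m := ⟨s - t, by omega⟩
      have hsm : s = 3 * m := by omega
      have hpz : ∀ m : ℤ, v (π ^ m) = WithZero.exp (-m) := by
        intro m
        rw [map_zpow₀, hπ, ← WithZero.exp_zsmul]
        congr 1
        simp
      obtain ⟨c, hc⟩ : ∃ c : k, c = π ^ (m : ℤ) := ⟨_, rfl⟩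
      have hc0 : c ≠ 0 := by rw [hc]; exact zpow_ne_zero _ hπ0
      have hcv : v c = WithZero.exp (-m) := by rw [hc, hpz]
      obtain ⟨X₁, hX₁⟩ : ∃ X₁, X₁ = c ^ 2 * x₀ := ⟨_, rfl⟩
      obtain ⟨T, hT⟩ : ∃ T, T = c * y₀ / x₀ := ⟨_, rfl⟩
      have hX1v : v X₁ = 1 := by
        rw [hX₁, map_mul, map_pow, hcv, ht, ← WithZero.exp_nsmul, ← WithZero.exp_add,
          ← WithZero.exp_zero]
        congr 1
        simp
        omega
      have hTv : v T = 1 := by
        rw [hT, map_div₀, map_mul, hcv, ht, hs, ← WithZero.exp_add, ← WithZero.exp_sub,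
          ← WithZero.exp_zero]
        congr 1
        omega
      have hX0 : X₁ ≠ 0 := by rw [hX₁]; exact mul_ne_zero (pow_ne_zero 2 hc0) hx0
      have hT0 : T ≠ 0 := by rw [hT]; exact div_ne_zero (mul_ne_zero hc0 hy0) hx0
      have h1 := adm_unit (v := v) (X := X₁) (T := T) (ε := c ^ 2)
        (δ := c ^ 2 * (a + c ^ 2 * b * X₁⁻¹) * X₁⁻¹)
        (κ := a + c ^ 2 * b * X₁⁻¹) ha hb hX0 hT0 hX1v.le (by rw [map_inv₀, hX1v, inv_one])
        hTv.le (by rw [map_inv₀, hTv, inv_one]) (by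
          rw [map_pow, hcv, ← WithZero.exp_nsmul, ← WithZero.exp_zero, WithZero.exp_le_exp]
          simp
          omega) rfl rfl (by
          rw [hT, div_pow, mul_pow, hxy0, hX₁]
          field_simp
          ring)
      have h2 := h1.sq (algebraMap k _ (2 / c))
      have e : qd (16 * a) (64 * b) X₁ (-c ^ 2 / 4) 0 * algebraMap k _ (2 / c) ^ 2 =
          AdjoinRoot.mk (cu (16 * a) (64 * b)) (C x - X) := by
        rw [← map_pow, mul_comm (qd (16 * a) (64 * b) X₁ (-c ^ 2 / 4) 0), smul_qd]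
        unfold qd
        congr 1
        have e1 : (2 / c) ^ 2 * X₁ = x := by
          rw [ex, hX₁]
          field_simp
          norm_num
        have e2 : (2 / c) ^ 2 * (-c ^ 2 / 4) = -1 := by
          field_simp
          norm_num
        rw [e1, e2]
        simp
        ring
      rwa [e] at h2
  · obtain ⟨r₀, hr₀⟩ : ∃ r₀, r₀ = r / 4 := ⟨_, rfl⟩
    have er : r = 4 * r₀ := by rw [hr₀]; ring
    have hr0 : r₀ ^ 3 + a * r₀ + b = 0 := by
      rw [er] at hr
      linear_combination hr / 64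
    have hvr : v r₀ ≤ 1 := by
      by_contra hvr
      push Not at hvr
      have h1 : v (r₀ ^ 3) ≤ max (v (a * r₀)) (v b) := by
        have e : r₀ ^ 3 = -(a * r₀ + b) := by linear_combination hr0
        rw [e, Valuation.map_neg]
        exact Valuation.map_add _ _ _
      have h2 : v (a * r₀) < v (r₀ ^ 3) := by
        rw [map_mul, map_pow]
        calc v a * v r₀ ≤ v r₀ := mul_le_of_le_one_left' ha
          _ < v r₀ ^ 3 := by
            conv_lhs => rw [← pow_one (v r₀)]
            exact pow_lt_pow_right₀ hvr (by norm_num)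
      have h3 : v b < v (r₀ ^ 3) := by
        refine lt_of_le_of_lt hb ?_
        rw [map_pow]
        exact one_lt_pow₀ hvr (by norm_num)
      exact absurd h1 (not_le.2 (max_lt h2 h3))
    have h1 := adm_tor ha hvr hr0
    rwa [← er] at h1

end

section lattice

variable {F L : Type} [Field F] [NumberField F] [Field L] [NumberField L] [Algebra F L]
  {f : (𝓞 F)[X]} {θ : L}

/-- the coefficient of `θ²` -/
theorem top_co (hG : IsGen 1 f θ) {k : Type} [Field k] (j : F →+* k) {A B : F}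
    (hf : fF f = cu A B) {φ : L →+* AdjoinRoot (cu (j A) (j B))}
    (h1 : ∀ a, φ (algebraMap F L a) = algebraMap k _ (j a)) (h2 : φ θ = AdjoinRoot.root _) (x : L) :
    j (hG.top x) = co (j A) (j B) 2 (φ x) := by
  obtain ⟨c, hc⟩ := hG.gen x
  have htop : hG.top x = c 2 := by
    have e1 : x = ∑ i, c i • hG.basis i := by
      rw [hc]
      refine Finset.sum_congr rfl fun i _ => ?_
      rw [hG.basis_apply, Algebra.smul_def]
    rw [e1, IsGen.top]
    have := hG.basis.repr_sum_self c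
    exact congrFun this (Fin.last 2)
  have e2 : x = algebraMap F L (c 0) + algebraMap F L (c 1) * θ + algebraMap F L (c 2) * θ ^ 2 := by
    rw [hc]
    have : (∑ i : Fin (2 * 1 + 1), algebraMap F L (c i) * θ ^ (i : ℕ)) =
      ∑ i : Fin 3, algebraMap F L (c i) * θ ^ (i : ℕ) := rfl
    rw [this, Fin.sum_univ_three]
    simp
  rw [htop]
  conv_rhs => rw [e2]
  simp only [map_add, map_mul, map_pow, h1, h2]
  have e3 : algebraMap k (AdjoinRoot (cu (j A) (j B))) (j (c 0)) +
      algebraMap k _ (j (c 1)) * AdjoinRoot.root _ + algebraMap k _ (j (c 2)) *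
        AdjoinRoot.root _ ^ 2 = qd (j A) (j B) (j (c 0)) (j (c 1)) (j (c 2)) := by
    unfold qd
    simp only [map_add, map_mul, map_pow]
    rfl
  have h4 := (co_qd (j A) (j B) (j (c 0)) (j (c 1)) (j (c 2))).2.2
  rw [← e3] at h4
  simp only [map_add] at h4 ⊢
  exact h4.symm

/-- **The lattices at the bad primes.** -/
theorem ll_pt (hG : IsGen 1 f θ) (w : HeightOneSpectrum (𝓞 F)) {A B : F} (hf : fF f = cu A B)
    (hirr : Irreducible (fF f)) {a b : F} (hA : A = 16 * a) (hB : B = 64 * b)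
    (ha : w.valuation F a ≤ 1) (hb : w.valuation F b ≤ 1) {h : F[X]} (h0 : aeval θ h ≠ 0)
    (hl : LocF (w.adicCompletion F) (fF f) h) :
    ∃ lam, LL hG w (aeval θ h) (GA (w.adicCompletion F)) lam := by
  haveI := Pool.Agent.H459.UT.charzero_cpt w
  obtain ⟨π, hπ⟩ := w.valuation_exists_uniformizer F
  obtain ⟨j, hj⟩ : ∃ j : F →+* w.adicCompletion F, j = algebraMap F _ := ⟨_, rfl⟩
  obtain ⟨v, hv⟩ : ∃ v : Valuation (w.adicCompletion F) (WithZero (Multiplicative ℤ)),
      v = Valued.v := ⟨_, rfl⟩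
  have hvx : ∀ x : F, v (j x) = w.valuation F x := by
    intro x
    rw [hv, hj, Pool.Agent.N704.PP.vx]
  have hdisc : 4 * A ^ 3 + 27 * B ^ 2 ≠ 0 := by
    rw [hf] at hirr
    exact Pool.Agent.H459.UF.disc_ne hirr
  have hjA : j A = 16 * j a := by rw [hA, map_mul, map_ofNat]
  have hjB : j B = 64 * j b := by rw [hB, map_mul, map_ofNat]
  have hdk : 4 * (16 * j a) ^ 3 + 27 * (64 * j b) ^ 2 ≠ 0 := by
    rw [← hjA, ← hjB]
    intro h1
    apply hdisc
    have h2 : j (4 * A ^ 3 + 27 * B ^ 2) = 0 := by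
      simp only [map_add, map_mul, map_pow, map_ofNat]
      exact h1
    exact (map_eq_zero j).1 h2
  have hcu : (fF f).map j = cu (16 * j a) (64 * j b) := by
    rw [hf, ← hjA, ← hjB]
    unfold cu
    simp
  have hcop : IsCoprime h (fF f) := by
    refine (hirr.coprime_iff_not_dvd.2 fun h1 => h0 ?_).symm
    obtain ⟨c, hc⟩ := h1
    rw [hc, map_mul, hG.root, zero_mul]
  have hcop' : IsCoprime (h.map j) (cu (16 * j a) (64 * j b)) := by
    rw [← hcu]
    exact hcop.map (Polynomial.mapRingHom j)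
  have hl' : LocIm (w.adicCompletion F) (cu (16 * j a) (64 * j b)) (h.map j) := by
    rw [← hcu, hj]
    exact hl
  obtain ⟨β, hβ, s, hs, hsβ⟩ := ptG_of_locIm hdk hcop' hl'
  obtain ⟨Λ, l1, l2, l3, l4⟩ := adm_cls (v := v) (π := j π) (by rw [hvx, hπ])
    (a := j a) (b := j b) (by rw [hvx]; exact ha) (by rw [hvx]; exact hb) hβ
  obtain ⟨φ, p1, p2, p3⟩ := ev_hom hG ((algebraMap (w.adicCompletion F)
      (AdjoinRoot (cu (16 * j a) (64 * j b)))).comp j) (AdjoinRoot.root _) (by
    have h5 := AdjoinRoot.eval₂_root (cu (16 * j a) (64 * j b))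
    have h6 : ∀ (R : Type) [CommRing R] (ι : w.adicCompletion F →+* R) (ρ : R),
        (cu (16 * j a) (64 * j b)).eval₂ ι ρ = 0 → (fF f).eval₂ (ι.comp j) ρ = 0 := by
      intro R _ ι ρ h
      rw [← hcu, eval₂_map] at h
      exact h
    exact h6 _ _ _ h5)
  have p3' : ∀ p : F[X], φ (aeval θ p) = AdjoinRoot.mk _ (p.map j) := by
    intro p
    rw [p3]
    have h6 := AdjoinRoot.aeval_eq (f := cu (16 * j a) (64 * j b)) (p.map j)
    rw [aeval_def, eval₂_map] at h6
    exact h6
  obtain ⟨s', hs'⟩ := hs.exists_right_inv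
  have htop : ∀ x, j (hG.top x) = co (16 * j a) (64 * j b) 2 (φ x) := by
    intro x
    have h7 := @top_co F L _ _ _ _ _ f θ hG _ _ j A B hf
    rw [hjA, hjB] at h7
    exact h7 (φ := φ) p1 p2 x
  refine ⟨fun x => Λ (φ x * s'), ?_, ?_, ?_, ?_⟩
  · intro x y
    beta_reduce
    rw [map_add, add_mul, l1]
  · intro c x
    beta_reduce
    rw [map_mul, p1, mul_assoc, RingHom.comp_apply, l2]
    exact congrArg (fun z => z • Λ (φ x * s')) (congrArg (fun ι : F →+* w.adicCompletion F => ι c) hj)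
  · intro x y
    beta_reduce
    rw [← l3]
    refine (congrArg (fun ι : F →+* w.adicCompletion F => ι (hG.top (x * y / aeval θ h)))
      hj).symm.trans ((htop _).trans ?_)
    congr 1
    have hα : φ (x * y / aeval θ h) * φ (aeval θ h) = φ x * φ y := by
      rw [← map_mul, div_mul_cancel₀ _ h0, map_mul]
    obtain ⟨z, hz⟩ : ∃ z, z = φ (x * y / aeval θ h) := ⟨_, rfl⟩
    obtain ⟨α, hαd⟩ : ∃ α, α = φ (aeval θ h) := ⟨_, rfl⟩
    rw [← hz, ← hαd] at hα
    rw [← hz]
    rw [← p3', ← hαd] at hsβ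
    obtain ⟨bb, hbb⟩ : ∃ bb, bb = AdjoinRoot.mk (cu (16 * j a) (64 * j b)) β := ⟨_, rfl⟩
    rw [← hbb] at hsβ ⊢
    linear_combination (s' ^ 2 * bb) * hα - (z * s' ^ 2) * hsβ - (z * (s * s' + 1)) * hs'
  · intro x hx i
    beta_reduce at hx ⊢
    rw [map_mul, p2, mul_assoc, ← hv]
    refine l4 (φ x * s') (fun i => ?_) i
    rw [hv]
    exact hx i

/-- The Gram matrix is unimodular. -/
theorem ug_ga (w : HeightOneSpectrum (𝓞 F)) : UG (GA (w.adicCompletion F)) := by
  have h1 : ∀ i j, Valued.v (GA (w.adicCompletion F) i j) ≤ 1 := by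
    intro i j
    fin_cases i <;> fin_cases j <;> simp [GA]
  refine ⟨h1, GA _, h1, ?_⟩
  ext i j
  fin_cases i <;> fin_cases j <;> simp [GA, Matrix.mul_apply, Fin.sum_univ_succ]

end lattice

end Pool.Agent.H459.UD
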