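import Pool.Agent.H459.UT.TopS

/-!
# Scaling the cubic (helper459)
-/

set_option autoImplicit false
set_option linter.all false

open Polynomial IsDedekindDomain NumberField
open scoped Classical

namespace Pool.Agent.H459.UD

open Pool.Agent.H459.UF (cu cu_monic cu_deg)
open Pool.Agent.H459.UT (cub_rep norm_cub)
open Pool.Agent.N874.JM (LocF)
open Pool.Agent.N783.PQ (LocIm)
open Pool.Agent.N783.PF (fF SelZero)
open Pool.Agent.N78.PF (fF_scale)

section

variable {E : Type} [Field E] [CharZero E]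

theorem scale_cu (A B c : E) : (cu A B).scaleRoots c = cu (c ^ 2 * A) (c ^ 3 * B) := by
  ext j
  rw [coeff_scaleRoots, cu_deg]
  unfold cu
  simp only [coeff_add, coeff_X_pow, coeff_C_mul, coeff_X, coeff_C]
  rcases j with _ | _ | _ | _ | j
  · simp
    ring
  · simp
    ring
  · simp
  · simp
  · simp

theorem loc_sc {A B : E} {h : E[X]} (H : LocIm E (cu A B) h) :
    LocIm E (cu (16 * A) (64 * B)) (h.comp (C 4⁻¹ * X)) := by
  have h1 := Pool.Agent.N457.PQ.sqt E 1 (cu (16 * A) (64 * B)) h (1 / 2) (cu_monic _ _)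
    (cu_deg _ _) (by norm_num)
  rw [scale_cu] at h1
  have e1 : ((1 / 2 : E) ^ 2) ^ 2 * (16 * A) = A := by
    ring
  have e2 : ((1 / 2 : E) ^ 2) ^ 3 * (64 * B) = B := by
    ring
  have e3 : ((1 / 2 : E) ^ 2) = 4⁻¹ := by norm_num
  rw [e1, e2, e3] at h1
  exact h1 H

theorem comp_cu (A B : E) : (cu (16 * A) (64 * B)).comp (C 4 * X) = C 64 * cu A B := by
  unfold cu
  simp only [add_comp, mul_comp, pow_comp, X_comp, C_comp, mul_pow]
  rw [← C_pow]
  have e : (4 : E) ^ 3 = 64 := by norm_num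
  rw [e]
  simp only [C_mul, C_ofNat]
  ring

theorem comp_cu' (A B : E) : (cu A B).comp (C 4⁻¹ * X) = C 64⁻¹ * cu (16 * A) (64 * B) := by
  unfold cu
  simp only [add_comp, mul_comp, pow_comp, X_comp, C_comp, mul_pow]
  rw [← C_pow]
  have e : (4⁻¹ : E) ^ 3 = 64⁻¹ := by norm_num
  rw [e]
  have e1 : (C B : E[X]) = C 64⁻¹ * C (64 * B) := by
    rw [← C_mul]
    congr 1
    ring
  have e2 : (C A : E[X]) * C 4⁻¹ = C 64⁻¹ * C (16 * A) := by
    rw [← C_mul, ← C_mul]
    congr 1
    ring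
  linear_combination X * e2 + e1

end

/-- Scaling. -/
theorem sel_scale {M : Type} [Field M] [NumberField M] {g : (𝓞 M)[X]} (hm : g.Monic) {A B : M}
    (hg : fF g = cu A B) (h4 : SelZero (g.scaleRoots ((4 : ℕ) : 𝓞 M))) : SelZero g := by
  have hG : fF (g.scaleRoots ((4 : ℕ) : 𝓞 M)) = cu (16 * A) (64 * B) := by
    rw [fF_scale hm, hg, scale_cu]
    congr 1 <;> push_cast <;> ring
  intro h hcop hnorm hloc hreal
  rw [hg] at hcop hnorm ⊢
  obtain ⟨h₂, hh₂⟩ : ∃ h₂ : M[X], h₂ = h.comp (C 4⁻¹ * X) := ⟨_, rfl⟩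
  have hmap : ∀ (E : Type) [Field E] [CharZero E] (j : M →+* E),
      LocIm E ((cu A B).map j) (h.map j) → LocIm E ((cu (16 * A) (64 * B)).map j) (h₂.map j) := by
    intro E _ _ j H
    have e1 : (cu A B).map j = cu (j A) (j B) := by
      unfold cu
      simp
    have e2 : (cu (16 * A) (64 * B)).map j = cu (16 * j A) (64 * j B) := by
      unfold cu
      rw [← map_ofNat j 16, ← map_ofNat j 64]
      simp only [Polynomial.map_add, Polynomial.map_mul, Polynomial.map_pow, map_X, map_C, map_mul]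
    have e3 : h₂.map j = (h.map j).comp (C 4⁻¹ * X) := by
      rw [hh₂, Polynomial.map_comp, Polynomial.map_mul, map_C, map_X, map_inv₀, map_ofNat]
    rw [e1] at H
    rw [e2, e3]
    exact loc_sc H
  have h5 := h4 h₂
  rw [hG] at h5
  obtain ⟨s, c, hs⟩ := h5 (by
      obtain ⟨u, v, huv⟩ := hcop
      refine ⟨u.comp (C 4⁻¹ * X), v.comp (C 4⁻¹ * X) * C 64⁻¹, ?_⟩
      obtain ⟨P, hP⟩ : ∃ P, P = cu A B := ⟨_, rfl⟩
      have hc := comp_cu' A B
      rw [← hP] at huv hc
      have := congrArg (fun p : M[X] => p.comp (C 4⁻¹ * X)) huv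
      simp only [add_comp, mul_comp, one_comp] at this
      rw [hc] at this
      rw [hh₂]
      linear_combination this) (by
      obtain ⟨c₀, c₁, c₂, hc⟩ := cub_rep A B h
      have hc' : cu (16 * A) (64 * B) ∣ h₂ - (C c₀ + C (c₁ / 4) * X + C (c₂ / 16) * X ^ 2) := by
        obtain ⟨q, hq⟩ := hc
        refine ⟨C 64⁻¹ * q.comp (C 4⁻¹ * X), ?_⟩
        obtain ⟨P, hP⟩ : ∃ P, P = cu A B := ⟨_, rfl⟩
        have hc := comp_cu' A B
        rw [← hP] at hq hc
        have := congrArg (fun p : M[X] => p.comp (C 4⁻¹ * X)) hq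
        simp only [sub_comp, add_comp, mul_comp, pow_comp, X_comp, C_comp] at this
        rw [hc] at this
        have e1 : (C c₁ : M[X]) * C 4⁻¹ = C (c₁ / 4) := by
          rw [← C_mul]
          congr 1
          ring
        have e2 : (C c₂ : M[X]) * (C 4⁻¹) ^ 2 = C (c₂ / 16) := by
          rw [← C_pow, ← C_mul]
          congr 1
          ring
        rw [hh₂]
        linear_combination this + X * e1 + X ^ 2 * e2
      rw [norm_cub hc] at hnorm
      rw [norm_cub hc']
      refine (congrArg IsSquare ?_).mp hnorm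
      ring) (by
      intro w
      haveI := Pool.Agent.H459.UT.charzero_cpt w
      have := hloc w
      rw [hg] at this
      exact hmap _ _ this) (by
      intro σ
      have := hreal σ
      rw [hg] at this
      exact hmap _ _ this)
  refine ⟨s.comp (C 4 * X), C 64 * c.comp (C 4 * X), ?_⟩
  obtain ⟨P, hP⟩ : ∃ P, P = cu (16 * A) (64 * B) := ⟨_, rfl⟩
  have hc := comp_cu A B
  rw [← hP] at hs hc
  have h6 := congrArg (fun p : M[X] => p.comp (C 4 * X)) hs
  simp only [sub_comp, mul_comp, pow_comp] at h6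
  rw [hc] at h6
  have e : h₂.comp (C 4 * X) = h := by
    rw [hh₂, comp_assoc]
    simp only [mul_comp, C_comp, X_comp]
    rw [← mul_assoc, ← C_mul]
    have : (4⁻¹ * 4 : M) = 1 := by norm_num
    rw [this, C_1, one_mul, comp_X]
  rw [e] at h6
  linear_combination h6

end Pool.Agent.H459.UD
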