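import Pool.Agent.H459.UD.Red
import Pool.Agent.H459.UT.Llt

/-!
# Lattices of the classes of points (helper459)
-/

set_option autoImplicit false
set_option linter.all false

open Polynomial Matrix WithZero
open scoped Classical

namespace Pool.Agent.H459.UD

open Pool.Agent.N352.PJ (Mt)
open Pool.Agent.H459.UF (cu cu_monic cu_deg)

section

variable {k : Type} [Field k]

/-- Elements of the algebra. -/
noncomputable def qd (A B : k) (a b c : k) : AdjoinRoot (cu A B) :=
  AdjoinRoot.mk (cu A B) (C a + C b * X + C c * X ^ 2)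

/-- Coordinates. -/
noncomputable def co (A B : k) (i : ℕ) : AdjoinRoot (cu A B) →ₗ[k] k :=
  (lcoeff k i).comp (AdjoinRoot.modByMonicHom (cu_monic A B))

theorem co_qd (A B a b c : k) : co A B 0 (qd A B a b c) = a ∧ co A B 1 (qd A B a b c) = b ∧
    co A B 2 (qd A B a b c) = c := by
  have h : AdjoinRoot.modByMonicHom (cu_monic A B) (qd A B a b c) = C a + C b * X + C c * X ^ 2 := by
    rw [qd, AdjoinRoot.modByMonicHom_mk]
    rw [modByMonic_eq_self_iff (cu_monic A B)]
    rw [degree_eq_natDegree (cu_monic A B).ne_zero, cu_deg]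
    have h1 : (C a + C b * X + C c * X ^ 2 : k[X]) = C c * X ^ 2 + C b * X + C a := by ring
    rw [h1]
    exact lt_of_le_of_lt degree_quadratic_le (by exact_mod_cast (by norm_num : 2 < 3))
  refine ⟨?_, ?_, ?_⟩
  · show (AdjoinRoot.modByMonicHom (cu_monic A B) (qd A B a b c)).coeff 0 = a
    rw [h]
    simp
  · show (AdjoinRoot.modByMonicHom (cu_monic A B) (qd A B a b c)).coeff 1 = b
    rw [h]
    simp
  · show (AdjoinRoot.modByMonicHom (cu_monic A B) (qd A B a b c)).coeff 2 = c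
    rw [h]
    simp [coeff_X, coeff_C]

theorem exists_qd (A B : k) (z : AdjoinRoot (cu A B)) : ∃ a b c, z = qd A B a b c := by
  obtain ⟨p, rfl⟩ := AdjoinRoot.mk_surjective z
  obtain ⟨a, b, c, h⟩ := Pool.Agent.H459.UT.cub_rep A B p
  refine ⟨a, b, c, ?_⟩
  rw [qd, ← sub_eq_zero, ← map_sub, AdjoinRoot.mk_eq_zero]
  exact h

theorem qd_mul (A B a b c a' b' c' : k) : qd A B a b c * qd A B a' b' c' =
    qd A B (a * a' - B * (b * c' + c * b')) (a * b' + b * a' - A * (b * c' + c * b') - B * (c * c'))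
      (a * c' + b * b' + c * a' - A * (c * c')) := by
  unfold qd
  rw [← map_mul]
  refine mk_eq (c := C (b * c' + c * b') + C (c * c') * X) ?_
  unfold cu
  simp only [C_sub, C_add, C_mul]
  ring

theorem qd_add (A B a b c a' b' c' : k) : qd A B a b c + qd A B a' b' c' =
    qd A B (a + a') (b + b') (c + c') := by
  unfold qd
  rw [← map_add]
  congr 1
  simp only [C_add]
  ring

theorem root_eq (A B : k) : AdjoinRoot.root (cu A B) = qd A B 0 1 0 := by
  unfold qd
  rw [AdjoinRoot.root]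
  congr 1
  simp

theorem smul_qd (A B e a b c : k) : algebraMap k (AdjoinRoot (cu A B)) e * qd A B a b c =
    qd A B (e * a) (e * b) (e * c) := by
  have h : algebraMap k (AdjoinRoot (cu A B)) e = qd A B e 0 0 := by
    unfold qd
    simp [AdjoinRoot.algebraMap_eq]
  rw [h, qd_mul]
  congr 1 <;> ring

/-- The Gram matrix. -/
def GA (k : Type) [Field k] : Mt 1 k := !![0, 0, 1; 0, 1, 0; 1, 0, 0]

theorem dot_ga (u v : Fin 3 → k) : u ⬝ᵥ (GA k *ᵥ v) = u 0 * v 2 + u 1 * v 1 + u 2 * v 0 := by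
  simp [GA, dotProduct, Matrix.mulVec, Fin.sum_univ_succ]
  ring

/-- There is a lattice for the class. -/
def Adm (v : Valuation k (WithZero (Multiplicative ℤ))) (A B : k) (β : AdjoinRoot (cu A B)) :
    Prop :=
  ∃ Λ : AdjoinRoot (cu A B) → Fin 3 → k, (∀ z w, Λ (z + w) = Λ z + Λ w) ∧
    (∀ (e : k) z, Λ (algebraMap k _ e * z) = e • Λ z) ∧
    (∀ z w, co A B 2 (z * w * β) = Λ z ⬝ᵥ (GA k *ᵥ Λ w)) ∧
    ∀ z, (∀ i, v (Λ z i) ≤ 1) → ∀ i, v (Λ (AdjoinRoot.root (cu A B) * z) i) ≤ 1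

variable {v : Valuation k (WithZero (Multiplicative ℤ))} {A B : k}

theorem Adm.sq {β : AdjoinRoot (cu A B)} (h : Adm v A B β) (s : AdjoinRoot (cu A B)) :
    Adm v A B (β * s ^ 2) := by
  obtain ⟨Λ, h1, h2, h3, h4⟩ := h
  refine ⟨fun z => Λ (s * z), fun z w => ?_, fun e z => ?_, fun z w => ?_, fun z hz i => ?_⟩
  · beta_reduce
    rw [mul_add, h1]
  · beta_reduce
    rw [mul_left_comm, h2]
  · beta_reduce
    rw [← h3]
    congr 1
    ring
  · have := h4 (s * z) hz i
    rw [mul_left_comm] at this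
    exact this

/-- a lattice given by three functionals -/
theorem adm_of {β : AdjoinRoot (cu A B)} (l : Fin 3 → Fin 3 → k)
    (h3 : ∀ a b c a' b' c' : k, co A B 2 (qd A B a b c * qd A B a' b' c' * β) =
      (l 0 0 * a + l 0 1 * b + l 0 2 * c) * (l 2 0 * a' + l 2 1 * b' + l 2 2 * c') +
      (l 1 0 * a + l 1 1 * b + l 1 2 * c) * (l 1 0 * a' + l 1 1 * b' + l 1 2 * c') +
      (l 2 0 * a + l 2 1 * b + l 2 2 * c) * (l 0 0 * a' + l 0 1 * b' + l 0 2 * c'))
    (h4 : ∀ a b c : k, (∀ i, v (l i 0 * a + l i 1 * b + l i 2 * c) ≤ 1) →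
      ∀ i, v (l i 0 * (-B * c) + l i 1 * (a - A * c) + l i 2 * b) ≤ 1) : Adm v A B β := by
  refine ⟨fun z i => l i 0 * co A B 0 z + l i 1 * co A B 1 z + l i 2 * co A B 2 z, ?_, ?_, ?_, ?_⟩
  · intro z w
    funext i
    rw [Pi.add_apply]
    simp only [map_add]
    ring
  · intro e z
    funext i
    rw [Pi.smul_apply, ← Algebra.smul_def]
    simp only [map_smul, smul_eq_mul]
    ring
  · intro z w
    obtain ⟨a, b, c, rfl⟩ := exists_qd A B z
    obtain ⟨a', b', c', rfl⟩ := exists_qd A B w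
    obtain ⟨e1, e2, e3⟩ := co_qd A B a b c
    obtain ⟨e1', e2', e3'⟩ := co_qd A B a' b' c'
    rw [h3, dot_ga]
    beta_reduce
    rw [e1, e2, e3, e1', e2', e3']
  · intro z hz i
    obtain ⟨a, b, c, rfl⟩ := exists_qd A B z
    obtain ⟨e1, e2, e3⟩ := co_qd A B a b c
    beta_reduce at hz ⊢
    rw [e1, e2, e3] at hz
    have e4 : AdjoinRoot.root (cu A B) * qd A B a b c = qd A B (-B * c) (a - A * c) b := by
      rw [root_eq, qd_mul]
      congr 1 <;> ring
    obtain ⟨e1', e2', e3'⟩ := co_qd A B (-B * c) (a - A * c) b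
    rw [e4, e1', e2', e3']
    exact h4 a b c hz i

end

end Pool.Agent.H459.UD
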