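import Pool.Agent.H459.UD.Adm

/-!
# Lattices of the classes of points: explicit formulas (helper459)
-/

set_option autoImplicit false
set_option linter.all false

open Polynomial Matrix WithZero
open scoped Classical

namespace Pool.Agent.H459.UD

open Pool.Agent.N352.PJ (Mt)
open Pool.Agent.H459.UF (cu cu_monic cu_deg)

section

variable {k : Type} [Field k] [CharZero k] {v : Valuation k (WithZero (Multiplicative ℤ))}

theorem co_mul3 (A B a b c a' b' c' x y z : k) :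
    co A B 2 (qd A B a b c * qd A B a' b' c' * qd A B x y z) =
      x * (a * c' + b * b' + c * a' - A * (c * c')) +
      y * (a * b' + b * a' - A * (b * c' + c * b') - B * (c * c')) +
      z * ((a * a' - B * (b * c' + c * b')) - A * (a * c' + b * b' + c * a' - A * (c * c'))) := by
  rw [qd_mul, qd_mul, (co_qd _ _ _ _ _).2.2]
  ring

/-- Points which are not integral, and the trivial class. -/
theorem adm_unit {a b X T ε δ κ : k} (ha : v a ≤ 1) (hb : v b ≤ 1) (hX0 : X ≠ 0) (hT0 : T ≠ 0)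
    (hX : v X ≤ 1) (hX' : v X⁻¹ ≤ 1) (hT : v T ≤ 1) (hT' : v T⁻¹ ≤ 1) (hε : v ε ≤ 1)
    (hκ : κ = a + ε * b * X⁻¹) (hδ : δ = ε * κ * X⁻¹) (hTT : T ^ 2 = X + ε * δ) :
    Adm v (16 * a) (64 * b) (qd (16 * a) (64 * b) X (-ε / 4) 0) := by
  refine adm_of ![![1 / 2, δ, 4 * κ - 8 * a], ![0, T, 0], ![0, -ε / 2, 2 * X]] ?_ ?_
  · intro a₁ b₁ c₁ a' b' c'
    rw [co_mul3]
    simp only [Matrix.cons_val_zero, Matrix.cons_val_one, Matrix.cons_val]
    have h1 : κ * X = a * X + ε * b := by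
      rw [hκ]
      field_simp
    have h2 : δ * X = ε * κ := by
      rw [hδ]
      field_simp
    linear_combination (-(b₁ * b')) * hTT + (-16 * c₁ * c') * h1 -
      (2 * (b₁ * c' + c₁ * b')) * h2
  · intro a₁ b₁ c₁ h
    have h0 := h 0
    have h1 := h 1
    have h2 := h 2
    simp only [Matrix.cons_val_zero, Matrix.cons_val_one, Matrix.cons_val, zero_mul, zero_add,
      add_zero] at h0 h1 h2
    obtain ⟨p, hp⟩ : ∃ p, p = 1 / 2 * a₁ + δ * b₁ + (4 * κ - 8 * a) * c₁ := ⟨_, rfl⟩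
    obtain ⟨q, hq⟩ : ∃ q, q = T * b₁ := ⟨_, rfl⟩
    obtain ⟨r, hr⟩ : ∃ r, r = -ε / 2 * b₁ + 2 * X * c₁ := ⟨_, rfl⟩
    rw [← hp] at h0
    rw [← hq] at h1
    rw [← hr] at h2
    let P : v.integer := ⟨p, h0⟩
    let Q : v.integer := ⟨q, h1⟩
    let R : v.integer := ⟨r, h2⟩
    let Xo : v.integer := ⟨X, hX⟩
    let Xi : v.integer := ⟨X⁻¹, hX'⟩
    let To : v.integer := ⟨T, hT⟩
    let Ti : v.integer := ⟨T⁻¹, hT'⟩
    let E : v.integer := ⟨ε, hε⟩
    let a0 : v.integer := ⟨a, ha⟩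
    let b0 : v.integer := ⟨b, hb⟩
    let K : v.integer := a0 + E * b0 * Xi
    let D : v.integer := E * K * Xi
    have hK : (K : k) = κ := by rw [hκ]; rfl
    have hD : (D : k) = δ := by
      show (E : k) * (K : k) * (Xi : k) = δ
      rw [hK, hδ]
    have eb : b₁ = T⁻¹ * q := by rw [hq]; field_simp
    have ec : 2 * c₁ = X⁻¹ * (r + ε / 2 * b₁) := by
      rw [hr]
      field_simp
      ring
    have ea : a₁ = 2 * p - 2 * δ * b₁ - (8 * κ - 16 * a) * c₁ := by
      rw [hp]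
      ring
    intro i
    fin_cases i
    · have e : (1 / 2 * (-(64 * b) * c₁) + δ * (a₁ - 16 * a * c₁) + (4 * κ - 8 * a) * b₁) =
          ((-(16 * b0 * Xi * R) - 8 * b0 * E * Xi * Ti * Q + D * (2 * P - 2 * D * Ti * Q -
            Xi * (4 * K * R + 2 * K * E * Ti * Q)) + (4 * K - 8 * a0) * Ti * Q : v.integer) : k) := by
        push_cast
        rw [hK, hD]
        show _ = -(16 * b * X⁻¹ * r) - 8 * b * ε * X⁻¹ * T⁻¹ * q + δ * (2 * p - 2 * δ * T⁻¹ * q -
            X⁻¹ * (4 * κ * r + 2 * κ * ε * T⁻¹ * q)) + (4 * κ - 8 * a) * T⁻¹ * q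
        linear_combination (-(16 * b) - 4 * δ * κ) * ec + δ * ea +
          (-8 * b * X⁻¹ * ε - 2 * δ ^ 2 - 2 * δ * κ * X⁻¹ * ε + (4 * κ - 8 * a)) * eb
      show v (1 / 2 * (-(64 * b) * c₁) + δ * (a₁ - 16 * a * c₁) + (4 * κ - 8 * a) * b₁) ≤ 1
      rw [e]
      exact Subtype.prop (p := fun x => v x ≤ 1) (_ : v.integer)
    · have e : (0 * (-(64 * b) * c₁) + T * (a₁ - 16 * a * c₁) + 0 * b₁) =
          ((To * (2 * P - 2 * D * Ti * Q -
            Xi * (4 * K * R + 2 * K * E * Ti * Q)) : v.integer) : k) := by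
        push_cast
        rw [hK, hD]
        show _ = T * (2 * p - 2 * δ * T⁻¹ * q -
            X⁻¹ * (4 * κ * r + 2 * κ * ε * T⁻¹ * q))
        linear_combination (- 4 * T * κ) * ec + T * ea +
          (- 2 * δ * T - 2 * T * κ * X⁻¹ * ε) * eb
      show v (0 * (-(64 * b) * c₁) + T * (a₁ - 16 * a * c₁) + 0 * b₁) ≤ 1
      rw [e]
      exact Subtype.prop (p := fun x => v x ≤ 1) (_ : v.integer)
    · have e : (0 * (-(64 * b) * c₁) + -ε / 2 * (a₁ - 16 * a * c₁) + 2 * X * b₁) =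
          ((2 * Xo * Ti * Q - E * (P - D * Ti * Q -
            Xi * (2 * K * R + K * E * Ti * Q)) : v.integer) : k) := by
        push_cast
        rw [hK, hD]
        show _ = 2 * X * T⁻¹ * q - ε * (p - δ * T⁻¹ * q -
            X⁻¹ * (2 * κ * r + κ * ε * T⁻¹ * q))
        linear_combination (2 * ε * κ) * ec - ε / 2 * ea +
          (δ * ε + κ * X⁻¹ * ε ^ 2 + 2 * X) * eb
      show v (0 * (-(64 * b) * c₁) + -ε / 2 * (a₁ - 16 * a * c₁) + 2 * X * b₁) ≤ 1
      rw [e]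
      exact Subtype.prop (p := fun x => v x ≤ 1) (_ : v.integer)

/-- Integral points. -/
theorem adm_int {a b x y : k} (ha : v a ≤ 1) (hx : v x ≤ 1) (hy : v y ≤ 1)
    (hxy : y ^ 2 = x ^ 3 + a * x + b) :
    Adm v (16 * a) (64 * b) (qd (16 * a) (64 * b) (4 * x) (-1) 0) := by
  refine adm_of ![![1, -2 * x, -(16 * a + 8 * x ^ 2)], ![0, 0, 8 * y], ![0, -1, 4 * x]] ?_ ?_
  · intro a₁ b₁ c₁ a' b' c'
    rw [co_mul3]
    simp only [Matrix.cons_val_zero, Matrix.cons_val_one, Matrix.cons_val]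
    linear_combination (-64 * (c₁ * c')) * hxy
  · intro a₁ b₁ c₁ h
    have h0 := h 0
    have h1 := h 1
    have h2 := h 2
    simp only [Matrix.cons_val_zero, Matrix.cons_val_one, Matrix.cons_val, zero_mul, zero_add,
      add_zero] at h0 h1 h2
    let P : v.integer := ⟨_, h0⟩
    let Q : v.integer := ⟨_, h1⟩
    let R : v.integer := ⟨_, h2⟩
    let a0 : v.integer := ⟨a, ha⟩
    let x0 : v.integer := ⟨x, hx⟩
    let y0 : v.integer := ⟨y, hy⟩
    intro i
    fin_cases i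
    · have e : (1 * (-(64 * b) * c₁) + -2 * x * (a₁ - 16 * a * c₁) +
          -(16 * a + 8 * x ^ 2) * b₁) =
          ((-8 * y0 * Q + (16 * a0 + 12 * x0 ^ 2) * R - 2 * x0 * P : v.integer) : k) := by
        push_cast
        show _ = -8 * y * (8 * y * c₁) + (16 * a + 12 * x ^ 2) * (-1 * b₁ + 4 * x * c₁) -
          2 * x * (1 * a₁ + -2 * x * b₁ + -(16 * a + 8 * x ^ 2) * c₁)
        linear_combination (64 * c₁) * hxy
      show v (1 * (-(64 * b) * c₁) + -2 * x * (a₁ - 16 * a * c₁) +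
          -(16 * a + 8 * x ^ 2) * b₁) ≤ 1
      rw [e]
      exact Subtype.prop (p := fun x => v x ≤ 1) (_ : v.integer)
    · have e : (0 * (-(64 * b) * c₁) + 0 * (a₁ - 16 * a * c₁) + 8 * y * b₁) =
          ((4 * x0 * Q - 8 * y0 * R : v.integer) : k) := by
        push_cast
        show _ = 4 * x * (8 * y * c₁) - 8 * y * (-1 * b₁ + 4 * x * c₁)
        ring
      show v (0 * (-(64 * b) * c₁) + 0 * (a₁ - 16 * a * c₁) + 8 * y * b₁) ≤ 1
      rw [e]
      exact Subtype.prop (p := fun x => v x ≤ 1) (_ : v.integer)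
    · have e : (0 * (-(64 * b) * c₁) + -1 * (a₁ - 16 * a * c₁) + 4 * x * b₁) =
          ((-2 * x0 * R - P : v.integer) : k) := by
        push_cast
        show _ = -2 * x * (-1 * b₁ + 4 * x * c₁) -
          (1 * a₁ + -2 * x * b₁ + -(16 * a + 8 * x ^ 2) * c₁)
        ring
      show v (0 * (-(64 * b) * c₁) + -1 * (a₁ - 16 * a * c₁) + 4 * x * b₁) ≤ 1
      rw [e]
      exact Subtype.prop (p := fun x => v x ≤ 1) (_ : v.integer)

/-- Points of order two. -/
theorem adm_tor {a b r : k} (ha : v a ≤ 1) (hr : v r ≤ 1) (h0 : r ^ 3 + a * r + b = 0) :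
    Adm v (16 * a) (64 * b) (AdjoinRoot.mk (cu (16 * a) (64 * b)) (tor (16 * a) (4 * r))) := by
  have e0 : AdjoinRoot.mk (cu (16 * a) (64 * b)) (tor (16 * a) (4 * r)) =
      qd (16 * a) (64 * b) (16 * r ^ 2 + 4 * r + 16 * a) (4 * r - 1) 1 := by
    unfold qd
    congr 1
    unfold tor
    have e : ((4 * r) ^ 2 + 4 * r + 16 * a : k) = 16 * r ^ 2 + 4 * r + 16 * a := by ring
    rw [e, C_1]
    ring
  rw [e0]
  refine adm_of ![![1, -2 * r, -(16 * a + 8 * r ^ 2)], ![1, 4 * r, 16 * r ^ 2],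
    ![0, -1, 4 * r]] ?_ ?_
  · intro a₁ b₁ c₁ a' b' c'
    rw [co_mul3]
    simp only [Matrix.cons_val_zero, Matrix.cons_val_one, Matrix.cons_val]
    linear_combination (-64 * (4 * r - 1) * (c₁ * c') - 64 * (b₁ * c' + c₁ * b')) * h0
  · intro a₁ b₁ c₁ h
    have h0' := h 0
    have h1 := h 1
    have h2 := h 2
    simp only [Matrix.cons_val_zero, Matrix.cons_val_one, Matrix.cons_val, zero_mul, zero_add,
      add_zero] at h0' h1 h2
    let P : v.integer := ⟨_, h0'⟩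
    let Q : v.integer := ⟨_, h1⟩
    let R : v.integer := ⟨_, h2⟩
    let a0 : v.integer := ⟨a, ha⟩
    let x0 : v.integer := ⟨r, hr⟩
    intro i
    fin_cases i
    · have e : (1 * (-(64 * b) * c₁) + -2 * r * (a₁ - 16 * a * c₁) +
          -(16 * a + 8 * r ^ 2) * b₁) =
          (((16 * a0 + 12 * x0 ^ 2) * R - 2 * x0 * P : v.integer) : k) := by
        push_cast
        show _ = (16 * a + 12 * r ^ 2) * (-1 * b₁ + 4 * r * c₁) -
          2 * r * (1 * a₁ + -2 * r * b₁ + -(16 * a + 8 * r ^ 2) * c₁)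
        linear_combination (-64 * c₁) * h0
      show v (1 * (-(64 * b) * c₁) + -2 * r * (a₁ - 16 * a * c₁) +
          -(16 * a + 8 * r ^ 2) * b₁) ≤ 1
      rw [e]
      exact Subtype.prop (p := fun x => v x ≤ 1) (_ : v.integer)
    · have e : (1 * (-(64 * b) * c₁) + 4 * r * (a₁ - 16 * a * c₁) + 16 * r ^ 2 * b₁) =
          ((4 * x0 * Q : v.integer) : k) := by
        push_cast
        show _ = 4 * r * (1 * a₁ + 4 * r * b₁ + 16 * r ^ 2 * c₁)
        linear_combination (-64 * c₁) * h0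
      show v (1 * (-(64 * b) * c₁) + 4 * r * (a₁ - 16 * a * c₁) + 16 * r ^ 2 * b₁) ≤ 1
      rw [e]
      exact Subtype.prop (p := fun x => v x ≤ 1) (_ : v.integer)
    · have e : (0 * (-(64 * b) * c₁) + -1 * (a₁ - 16 * a * c₁) + 4 * r * b₁) =
          ((-2 * x0 * R - P : v.integer) : k) := by
        push_cast
        show _ = -2 * r * (-1 * b₁ + 4 * r * c₁) -
          (1 * a₁ + -2 * r * b₁ + -(16 * a + 8 * r ^ 2) * c₁)
        ring
      show v (0 * (-(64 * b) * c₁) + -1 * (a₁ - 16 * a * c₁) + 4 * r * b₁) ≤ 1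
      rw [e]
      exact Subtype.prop (p := fun x => v x ≤ 1) (_ : v.integer)

end

end Pool.Agent.H459.UD
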