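import Pool.Agent.H459.UF.ExsW

/-!
# Primes which split completely and are one modulo an integer (helper459)
-/

set_option autoImplicit false
set_option linter.all false

open Polynomial NumberField IsDedekindDomain
open scoped Classical IntermediateField

namespace Pool.Agent.H459.UD

open Pool.Agent.H459.UF
open Pool.Agent.N783.PF (Bd Cg sp rd Ht GoodS GoodF Fam)
open Pool.Agent.N874.QM (Gen SplitMod)

theorem one_of_splits {N q : ℕ} (hq : q.Prime) (hN : 0 < N) (hqN : N < q)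
    (h : ((cyclotomic N ℤ).map (Int.castRingHom (ZMod q))).Splits) : q % N = 1 % N := by
  haveI : Fact q.Prime := ⟨hq⟩
  rw [map_cyclotomic] at h
  haveI : NeZero ((N : ZMod q)) := ⟨by
    intro h0
    rw [ZMod.natCast_eq_zero_iff] at h0
    exact absurd (Nat.le_of_dvd hN h0) (by omega)⟩
  obtain ⟨x, hx⟩ := h.exists_eval_eq_zero (by
    rw [degree_cyclotomic]
    have := Nat.totient_pos.2 hN
    exact_mod_cast this.ne')
  have h1 : IsPrimitiveRoot x N := isRoot_cyclotomic_iff.1 hx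
  have h2 : x ≠ 0 := h1.ne_zero hN.ne'
  have h3 := h1.dvd_of_pow_eq_one (q - 1) (ZMod.pow_card_sub_one_eq_one h2)
  have h4 : 1 ≤ q := hq.one_lt.le
  exact ((Nat.modEq_iff_dvd' h4).2 h3).symm

theorem exsD (F F' : Type) [Field F] [NumberField F] [Field F'] [NumberField F']
    [Algebra F F'] (g W m N : ℕ) (hg : 1 ≤ g) (hN : 0 < N) :
    ∃ (S : Finset ℕ) (𝔮 : ℕ → Ideal (𝓞 F)) (h P : ℕ → (𝓞 F)[X]),
      GoodS g W S 𝔮 h P ∧ S.card = m ∧ (∀ q ∈ S, q % N = 1 % N) ∧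
      ∀ q ∈ S, ∀ v : HeightOneSpectrum (𝓞 F), (q : 𝓞 F) ∈ v.asIdeal →
        Unr F F' v ∧ Deg1 F F' v := by
  obtain ⟨γ, m', δ, hG, hdeg⟩ := Pool.Agent.N160.QM.gen F'
  have hGF : Gen F γ m' δ := by
    refine ⟨?_, hG.monic, hG.root, hG.ne, hG.comb⟩
    rw [eq_top_iff]
    intro x _
    have h1 : x ∈ ℚ⟮γ⟯ := by rw [hG.top]; trivial
    have h2 : ℚ⟮γ⟯ ≤ (F⟮γ⟯).restrictScalars ℚ := by
      rw [IntermediateField.adjoin_simple_le_iff]
      exact IntermediateField.mem_adjoin_simple_self F γ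
    exact h2 h1
  obtain ⟨b, hb⟩ : ∃ b : ℕ, b = W + (2 * g + 1) + (discr F).natAbs + (discr F').natAbs + δ + N :=
    ⟨_, rfl⟩
  have hmm : (m' * cyclotomic N ℤ).Monic := hG.monic.mul (cyclotomic.monic N ℤ)
  obtain ⟨S, hS1, hS2⟩ := ((Pool.Agent.N891.QM.infinite_split (m' * cyclotomic N ℤ) hmm).sdiff
    (Set.finite_Iic b)).exists_subset_card_eq m
  have hS : ∀ q ∈ S, q.Prime ∧ b < q ∧ q % 8 = 1 ∧ SplitMod q m' ∧ q % N = 1 % N := by
    intro q hq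
    obtain ⟨⟨h1, h2, h3⟩, h4⟩ := hS1 hq
    have : Fact q.Prime := ⟨h1⟩
    rw [Set.mem_Iic] at h4
    rw [Polynomial.map_mul] at h3
    have h5 : (m'.map (Int.castRingHom (ZMod q))).Splits ∧
        ((cyclotomic N ℤ).map (Int.castRingHom (ZMod q))).Splits := by
      have hne : m'.map (Int.castRingHom (ZMod q)) *
          (cyclotomic N ℤ).map (Int.castRingHom (ZMod q)) ≠ 0 := by
        rw [← Polynomial.map_mul]
        exact (hmm.map _).ne_zero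
      exact ⟨h3.of_dvd hne (dvd_mul_right _ _), h3.of_dvd hne (dvd_mul_left _ _)⟩
    refine ⟨h1, by omega, h2, Pool.Agent.N891.QM.splitMod_of_splits q m' hG.monic h5.1,
      one_of_splits h1 hN (by omega) h5.2⟩
  have hdata : ∀ q : ℕ, ∃ (𝔮 : Ideal (𝓞 F)) (h A : (𝓞 F)[X]), q ∈ S →
    (∀ 𝔭 : Ideal (𝓞 F), 𝔭.IsPrime → (q : 𝓞 F) ∉ 𝔭 ^ 2) ∧
    𝔮.IsPrime ∧ (q : 𝓞 F) ∈ 𝔮 ∧
    h.Monic ∧ h.natDegree = 2 * g ∧ Irreducible (rd 𝔮 h) ∧
    A.Monic ∧ A.natDegree = 2 * g + 1 ∧ A.coeff (2 * g) = 0 ∧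
    Cg 𝔮 A (X * h) ∧
    ∀ 𝔭 : Ideal (𝓞 F), 𝔭.IsPrime → (q : 𝓞 F) ∈ 𝔭 → 𝔭 ≠ 𝔮 → Irreducible (rd 𝔭 A) := by
    intro q
    by_cases hq : q ∈ S
    · obtain ⟨h1, h2, h3, -⟩ := hS q hq
      obtain ⟨𝔮, h, A, hh⟩ := Pool.Agent.N710.PF.exists_data F g q hg h1 (by omega) (by omega)
      exact ⟨𝔮, h, A, fun _ => hh⟩
    · exact ⟨⊥, 0, 0, fun h => absurd h hq⟩
  choose 𝔮 h A hh using hdata
  refine ⟨S, 𝔮, h, A, fun q hq => ?_, hS2, fun q hq => (hS q hq).2.2.2.2, fun q hq v hv => ?_⟩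
  · obtain ⟨h1, h2, h3, -⟩ := hS q hq
    exact ⟨h1, by omega, by omega, h3, hh q hq⟩
  · obtain ⟨h1, h2, h3, h4, -⟩ := hS q hq
    refine ⟨fun P hP => ?_, ?_⟩
    · refine Pool.Agent.N710.PF.not_mem_sq (F := F') h1 (by omega) P.isPrime ?_
      have := hP (Ideal.mem_map_of_mem (algebraMap (𝓞 F) (𝓞 F')) hv)
      rwa [map_natCast] at this
    · refine deg1_of_spl hGF h1 h4 (fun hd => ?_) hv
      have := Nat.le_of_dvd (Nat.pos_of_ne_zero hG.ne) hd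
      omega

end Pool.Agent.H459.UD
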