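import Pool.Agent.H459.UT.Fw

/-!
# The conditions at the small primes: a residue class (helper459)
-/

set_option autoImplicit false
set_option linter.all false

open Polynomial IsDedekindDomain NumberField
open scoped Classical

namespace Pool.Agent.H459.UD

open Pool.Agent.H459.UF (exists_loc rd_pol)
open Pool.Agent.H459.UT (GoodT)
open Pool.Agent.N783.PF (Cg sp rd Ht fF)
open Pool.Agent.N61.PF (pol pol_monic pol_natDegree pol_coeff0 pol_coeff1 pol_coeff2)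

theorem exists_sol {F : Type} [Field F] [NumberField F] {v : HeightOneSpectrum (𝓞 F)} {u : 𝓞 F}
    (hu : u ∉ v.asIdeal) (c : 𝓞 F) : ∃ x : 𝓞 F, u * x - c ∈ v.asIdeal := by
  haveI hmax : v.asIdeal.IsMaximal := v.isMaximal
  letI : Field (𝓞 F ⧸ v.asIdeal) := Ideal.Quotient.field v.asIdeal
  have h0 : Ideal.Quotient.mk v.asIdeal u ≠ 0 := fun h => hu (Ideal.Quotient.eq_zero_iff_mem.1 h)
  obtain ⟨x, hx⟩ := Ideal.Quotient.mk_surjective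
    ((Ideal.Quotient.mk v.asIdeal u)⁻¹ * Ideal.Quotient.mk v.asIdeal c)
  refine ⟨x, ?_⟩
  rw [← Ideal.Quotient.eq_zero_iff_mem, map_sub, map_mul, hx, ← mul_assoc, mul_inv_cancel₀ h0,
    one_mul, sub_self]

/-- **The conditions at the small primes.** -/
theorem gfD (F : Type) [Field F] [NumberField F] (m₀ k M₀ : ℕ) (hm : 0 < m₀) (h2 : 2 ∣ m₀)
    (hk : 0 < k) (a₁ b₁ : 𝓞 F) :
    ∃ (W : ℕ) (f₁ : (𝓞 F)[X]), GoodT 1 W (fun v => (m₀ : 𝓞 F) ∈ v.asIdeal) f₁ ∧ k ∣ W ∧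
      m₀ ∣ W ∧ (∀ p : ℕ, p.Prime → p ≤ M₀ → p ∣ W) ∧
      (∃ v : HeightOneSpectrum (𝓞 F), (W : 𝓞 F) ∈ v.asIdeal ∧ (m₀ : 𝓞 F) ∉ v.asIdeal) ∧
      (∀ v : HeightOneSpectrum (𝓞 F), (W : 𝓞 F) ∈ v.asIdeal → (m₀ : 𝓞 F) ∉ v.asIdeal →
        Irreducible (rd v.asIdeal f₁)) ∧
      ∀ f : (𝓞 F)[X], Cg (sp F W) f f₁ → ∃ a b : 𝓞 F, f.coeff 1 = 16 * a ∧ f.coeff 0 = 64 * b ∧
        ((m₀ ^ 6 : ℕ) : 𝓞 F) ∣ a - a₁ ∧ ((m₀ ^ 6 : ℕ) : 𝓞 F) ∣ b - b₁ := by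
  obtain ⟨p₀, hp1, hp₀⟩ := Nat.exists_infinite_primes (m₀ + 1)
  obtain ⟨W, hW⟩ : ∃ W : ℕ, W = 64 * m₀ ^ 6 * (p₀ * k * primorial M₀) := ⟨_, rfl⟩
  have hW0 : 0 < W := by
    rw [hW]
    exact Nat.mul_pos (by positivity) (Nat.mul_pos (Nat.mul_pos hp₀.pos hk)
      (primorial_pos _))
  have h2W : 2 ∣ W := by
    rw [hW]
    exact Dvd.dvd.mul_right (Dvd.dvd.mul_right (by norm_num) _) _
  have hkW : k ∣ W := by
    rw [hW]
    exact Dvd.dvd.mul_left (Dvd.dvd.mul_right (dvd_mul_left _ _) _) _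
  have hmW : m₀ ∣ W := by
    rw [hW]
    exact Dvd.dvd.mul_right (Dvd.dvd.mul_left (dvd_pow_self _ (by norm_num)) _) _
  have hpW₀ : p₀ ∣ W := by
    rw [hW]
    exact Dvd.dvd.mul_left (Dvd.dvd.mul_right (dvd_mul_right _ _) _) _
  have hpW : ∀ p : ℕ, p.Prime → p ≤ M₀ → p ∣ W := by
    intro p hp hpM
    rw [hW]
    exact Dvd.dvd.mul_left (Dvd.dvd.mul_left ((hp.dvd_primorial_iff).2 hpM) _) _
  choose A B hA hB using exists_loc (F := F)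
  have hWne : Ideal.span {(W : 𝓞 F)} ≠ 0 := by
    rw [Ne, Ideal.zero_eq_bot, Ideal.span_singleton_eq_bot]
    exact_mod_cast hW0.ne'
  have hfinS := Ideal.finite_factors hWne
  obtain ⟨T, hT⟩ : ∃ T, T = hfinS.toFinset := ⟨_, rfl⟩
  have hmem : ∀ v : HeightOneSpectrum (𝓞 F), (W : 𝓞 F) ∈ v.asIdeal → v ∈ T := by
    intro v hv
    rw [hT, Set.Finite.mem_toFinset, Set.mem_setOf_eq, Ideal.dvd_span_singleton]
    exact hv
  have h2m : ∀ v : HeightOneSpectrum (𝓞 F), (m₀ : 𝓞 F) ∉ v.asIdeal → (2 : 𝓞 F) ∉ v.asIdeal := by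
    intro v hv h2v
    apply hv
    obtain ⟨d, hd⟩ := h2
    rw [hd, Nat.cast_mul]
    exact Ideal.mul_mem_right _ _ (by exact_mod_cast h2v)
  have hun : ∀ (v : HeightOneSpectrum (𝓞 F)) (n : ℕ), (m₀ : 𝓞 F) ∉ v.asIdeal →
      (2 : 𝓞 F) ^ n * (m₀ : 𝓞 F) ^ 6 ∉ v.asIdeal := by
    intro v n hv h
    rcases v.isPrime.mem_or_mem h with h | h
    · exact h2m v hv (v.isPrime.mem_of_pow_mem _ h)
    · exact hv (v.isPrime.mem_of_pow_mem _ h)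
  have hexa : ∀ v : HeightOneSpectrum (𝓞 F), ∃ x : 𝓞 F, (m₀ : 𝓞 F) ∉ v.asIdeal →
      (2 : 𝓞 F) ^ 4 * (m₀ : 𝓞 F) ^ 6 * x - (A v - 2 ^ 4 * a₁) ∈ v.asIdeal := by
    intro v
    by_cases hv : (m₀ : 𝓞 F) ∈ v.asIdeal
    · exact ⟨0, fun h => absurd hv h⟩
    · obtain ⟨x, hx⟩ := exists_sol (hun v 4 hv) (A v - 2 ^ 4 * a₁)
      exact ⟨x, fun _ => hx⟩
  have hexb : ∀ v : HeightOneSpectrum (𝓞 F), ∃ x : 𝓞 F, (m₀ : 𝓞 F) ∉ v.asIdeal →
      (2 : 𝓞 F) ^ 6 * (m₀ : 𝓞 F) ^ 6 * x - (B v - 2 ^ 6 * b₁) ∈ v.asIdeal := by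
    intro v
    by_cases hv : (m₀ : 𝓞 F) ∈ v.asIdeal
    · exact ⟨0, fun h => absurd hv h⟩
    · obtain ⟨x, hx⟩ := exists_sol (hun v 6 hv) (B v - 2 ^ 6 * b₁)
      exact ⟨x, fun _ => hx⟩
  choose x hx using hexa
  choose y hy using hexb
  obtain ⟨a, ha⟩ := IsDedekindDomain.exists_forall_sub_mem_ideal (s := T)
      (fun v => v.asIdeal) (fun v => 1) (fun v _ => v.prime)
      (fun v _ w _ hvw h => hvw (HeightOneSpectrum.ext h)) (fun v => x v)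
  obtain ⟨b, hb⟩ := IsDedekindDomain.exists_forall_sub_mem_ideal (s := T)
      (fun v => v.asIdeal) (fun v => 1) (fun v _ => v.prime)
      (fun v _ w _ hvw h => hvw (HeightOneSpectrum.ext h)) (fun v => y v)
  obtain ⟨α, hα⟩ : ∃ α : 𝓞 F, α = a₁ + (m₀ : 𝓞 F) ^ 6 * a := ⟨_, rfl⟩
  obtain ⟨β, hβ⟩ : ∃ β : 𝓞 F, β = b₁ + (m₀ : 𝓞 F) ^ 6 * b := ⟨_, rfl⟩
  have hirr : ∀ v : HeightOneSpectrum (𝓞 F), (W : 𝓞 F) ∈ v.asIdeal → (m₀ : 𝓞 F) ∉ v.asIdeal →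
      Irreducible (rd v.asIdeal (pol (16 * α) (64 * β))) := by
    intro v hv h2
    have h1 := Ideal.pow_le_self one_ne_zero (ha v (hmem v hv))
    have h3 := Ideal.pow_le_self one_ne_zero (hb v (hmem v hv))
    have h4 := hx v h2
    have h5 := hy v h2
    have e1 : 16 * α - A v ∈ v.asIdeal := by
      have e : 16 * α - A v = (2 : 𝓞 F) ^ 4 * (m₀ : 𝓞 F) ^ 6 * (a - x v) +
          ((2 : 𝓞 F) ^ 4 * (m₀ : 𝓞 F) ^ 6 * x v - (A v - 2 ^ 4 * a₁)) := by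
        rw [hα]
        ring
      rw [e]
      exact Ideal.add_mem _ (Ideal.mul_mem_left _ _ h1) h4
    have e2 : 64 * β - B v ∈ v.asIdeal := by
      have e : 64 * β - B v = (2 : 𝓞 F) ^ 6 * (m₀ : 𝓞 F) ^ 6 * (b - y v) +
          ((2 : 𝓞 F) ^ 6 * (m₀ : 𝓞 F) ^ 6 * y v - (B v - 2 ^ 6 * b₁)) := by
        rw [hβ]
        ring
      rw [e]
      exact Ideal.add_mem _ (Ideal.mul_mem_left _ _ h3) h5
    have e : rd v.asIdeal (pol (16 * α) (64 * β)) = rd v.asIdeal (pol (A v) (B v)) := by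
      rw [rd_pol, rd_pol, Ideal.Quotient.eq.2 e1, Ideal.Quotient.eq.2 e2]
    rw [e]
    exact hA v
  refine ⟨W, pol (16 * α) (64 * β), ⟨pol_monic _ _, pol_natDegree _ _, pol_coeff2 _ _, hW0, h2W,
    ?_⟩, hkW, hmW, hpW, ?_, hirr, ?_⟩
  · intro v hv h2
    have h1 := hirr v hv h2
    haveI : Finite (𝓞 F ⧸ v.asIdeal) := Ideal.finiteQuotientOfFreeOfNeBot v.asIdeal v.ne_bot
    haveI : IsDomain (𝓞 F ⧸ v.asIdeal) := Ideal.Quotient.isDomain v.asIdeal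
    exact Pool.Agent.N951.PF.sep_of_irr h1
  · obtain ⟨v, hv⟩ : ∃ v : HeightOneSpectrum (𝓞 F), (p₀ : 𝓞 F) ∈ v.asIdeal := by
      have hnu : ¬ IsUnit ((p₀ : 𝓞 F)) := by
        intro hu
        have h1 := (hu.map (Algebra.norm ℤ))
        rw [← map_natCast (algebraMap ℤ (𝓞 F)), Algebra.norm_algebraMap, Int.isUnit_iff_natAbs_eq,
          Int.natAbs_pow, Int.natAbs_natCast] at h1
        have h2 : 1 < p₀ ^ Module.finrank ℤ (𝓞 F) :=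
          Nat.one_lt_pow (Module.finrank_pos.ne') hp₀.one_lt
        omega
      obtain ⟨I, hI, hle⟩ := Ideal.exists_le_maximal (Ideal.span {(p₀ : 𝓞 F)})
        (by rwa [Ne, Ideal.span_singleton_eq_top])
      have hpI : (p₀ : 𝓞 F) ∈ I := hle (Ideal.mem_span_singleton_self _)
      refine ⟨⟨I, hI.isPrime, ?_⟩, hpI⟩
      intro h0
      rw [h0, Ideal.mem_bot] at hpI
      exact hp₀.ne_zero (by exact_mod_cast hpI)
    refine ⟨v, ?_, ?_⟩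
    · obtain ⟨d, hd⟩ := hpW₀
      rw [hd, Nat.cast_mul]
      exact Ideal.mul_mem_right _ _ hv
    · intro hmv
      have hco : Nat.Coprime p₀ m₀ := by
        rw [Nat.Prime.coprime_iff_not_dvd hp₀]
        intro hd
        have := Nat.le_of_dvd hm hd
        omega
      obtain ⟨s, t, hst⟩ := (Nat.isCoprime_iff_coprime.2 hco)
      apply v.isPrime.ne_top
      rw [Ideal.eq_top_iff_one]
      have e : (1 : 𝓞 F) = (s : 𝓞 F) * (p₀ : 𝓞 F) + (t : 𝓞 F) * (m₀ : 𝓞 F) := by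
        exact_mod_cast (congrArg (fun z : ℤ => (z : 𝓞 F)) hst).symm
      rw [e]
      exact Ideal.add_mem _ (Ideal.mul_mem_left _ _ hv) (Ideal.mul_mem_left _ _ hmv)
  · intro f hf
    have c1 := hf 1
    have c0 := hf 0
    rw [pol_coeff1, sp, Ideal.mem_span_singleton] at c1
    rw [pol_coeff0, sp, Ideal.mem_span_singleton] at c0
    obtain ⟨s, hs⟩ := c1
    obtain ⟨t, ht⟩ := c0
    refine ⟨α + 4 * (m₀ : 𝓞 F) ^ 6 * ((p₀ * k * primorial M₀ : ℕ) : 𝓞 F) * s,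
      β + (m₀ : 𝓞 F) ^ 6 * ((p₀ * k * primorial M₀ : ℕ) : 𝓞 F) * t, ?_, ?_, ?_, ?_⟩
    · rw [hW] at hs
      push_cast at hs ⊢
      linear_combination hs
    · rw [hW] at ht
      push_cast at ht ⊢
      linear_combination ht
    · rw [hα]
      push_cast
      refine ⟨a + 4 * ((p₀ : 𝓞 F) * (k : 𝓞 F) * (primorial M₀ : 𝓞 F)) * s, ?_⟩
      ring
    · rw [hβ]
      push_cast
      refine ⟨b + ((p₀ : 𝓞 F) * (k : 𝓞 F) * (primorial M₀ : 𝓞 F)) * t, ?_⟩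
      ring

end Pool.Agent.H459.UD
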