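import Pool.Agent.H459.UF.FamS

/-!
# Prescribed signs (helper459)
-/

set_option autoImplicit false
set_option linter.all false

open Polynomial NumberField IsDedekindDomain
open scoped Classical

namespace Pool.Agent.H459.UD

open Pool.Agent.N352.PJ (dd pol dis Dy D2)
open Pool.Agent.N352.PF (dg Bal nv rv Bz Bx S_BX S_SML S_WK S_STR S_DSC S_GF S_PF S_CU S_LD S_PR)

/-- The discriminants have the signs of `u`. -/
def Sb {F : Type} [Field F] [NumberField F] (u : 𝓞 F) (a : Fin (2 * 1) → 𝓞 F) : Prop :=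
  ∀ σ : F →+* ℝ, 0 < σ (u : F) * σ ((4 * (a 1) ^ 3 + 27 * (a 0) ^ 2 : 𝓞 F) : F)

theorem exists_U {F : Type} [Field F] [NumberField F] (u : 𝓞 F)
    (hu : ∀ σ : F →+* ℝ, σ (u : F) ≠ 0) : ∃ U : ℕ, 1 ≤ U ∧
      (∀ φ : F →+* ℂ, ‖φ (u : F)‖ ≤ U) ∧ ∀ σ : F →+* ℝ, 1 ≤ U * |σ (u : F)| := by
  have hinj : Function.Injective (fun σ : F →+* ℝ => (algebraMap ℝ ℂ).comp σ) := by
    intro σ τ h
    refine RingHom.ext fun x => ?_
    have := congrArg (fun φ : F →+* ℂ => φ x) h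
    simpa using this
  haveI : Finite (F →+* ℝ) := Finite.of_injective _ hinj
  obtain ⟨U₁, h1⟩ : ∃ U₁ : ℕ, ∀ φ : F →+* ℂ, ‖φ (u : F)‖ ≤ U₁ := by
    obtain ⟨M, hM⟩ := (Set.finite_range (fun φ : F →+* ℂ => ‖φ (u : F)‖)).bddAbove
    obtain ⟨n, hn⟩ := exists_nat_ge M
    exact ⟨n, fun φ => (hM ⟨φ, rfl⟩).trans hn⟩
  obtain ⟨U₂, h2⟩ : ∃ U₂ : ℕ, ∀ σ : F →+* ℝ, 1 / |σ (u : F)| ≤ U₂ := by
    obtain ⟨M, hM⟩ := (Set.finite_range (fun σ : F →+* ℝ => 1 / |σ (u : F)|)).bddAbove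
    obtain ⟨n, hn⟩ := exists_nat_ge M
    exact ⟨n, fun σ => (hM ⟨σ, rfl⟩).trans hn⟩
  refine ⟨U₁ + U₂ + 1, by omega, fun φ => (h1 φ).trans ?_, fun σ => ?_⟩
  · push_cast
    have : (0 : ℝ) ≤ U₂ := Nat.cast_nonneg _
    linarith
  · have h3 := h2 σ
    have h4 : 0 < |σ (u : F)| := abs_pos.2 (hu σ)
    rw [div_le_iff₀ h4] at h3
    push_cast
    have : (0 : ℝ) ≤ U₁ := Nat.cast_nonneg _
    nlinarith

/-- The inequality. -/
theorem sign_ineq {s x y B B' U t : ℝ} (hB : 0 < B) (hU : 1 ≤ U) (ht : B ^ 2 ≤ 4 * U * t)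
    (hs : 1 ≤ U * |s|) (hBB : 4 * U * B' ≤ B) (hB0 : 0 ≤ B') (hx : |x| ≤ B' ^ 3)
    (hy : |y| ≤ B' ^ 2) : 0 < s * (4 * (y + s * t) ^ 3 + 27 * x ^ 2) := by
  have hU0 : 0 < U := by linarith
  have ht0 : 0 < t := by
    by_contra h
    push Not at h
    have : 4 * U * t ≤ 0 := by nlinarith
    have : 0 < B ^ 2 := by positivity
    linarith
  -- everything in terms of `q = B / U`
  obtain ⟨q, hq⟩ : ∃ q, q = B / U := ⟨_, rfl⟩
  have hBq : B = q * U := by rw [hq]; field_simp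
  have hq0 : 0 < q := by rw [hq]; positivity
  have hB'q : 4 * B' ≤ q := by
    have h1 : U * (4 * B') ≤ U * q := by
      calc U * (4 * B') = 4 * U * B' := by ring
        _ ≤ B := hBB
        _ = U * q := by rw [hBq]; ring
    exact le_of_mul_le_mul_left h1 hU0
  have hst : q ^ 2 ≤ 4 * (|s| * t) := by
    have h1 : q ^ 2 * U ≤ 4 * t := by
      have h2 : U * (q ^ 2 * U) ≤ U * (4 * t) := by
        calc U * (q ^ 2 * U) = B ^ 2 := by rw [hBq]; ring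
          _ ≤ 4 * U * t := ht
          _ = U * (4 * t) := by ring
      exact le_of_mul_le_mul_left h2 hU0
    have h3 : q ^ 2 * U * 1 ≤ q ^ 2 * U * (U * |s|) := mul_le_mul_of_nonneg_left hs (by positivity)
    have h4 : (q ^ 2 * U) * (U * |s|) ≤ (4 * t) * (U * |s|) :=
      mul_le_mul_of_nonneg_right h1 (by positivity)
    have h5 : U * q ^ 2 ≤ U * (4 * (|s| * t)) := by nlinarith
    exact le_of_mul_le_mul_left h5 hU0
  have hy' : |y| ≤ q ^ 2 / 16 := by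
    have h1 : (4 * B') ^ 2 ≤ q ^ 2 := pow_le_pow_left₀ (by positivity) hB'q 2
    nlinarith
  have hx' : |x| ≤ q ^ 3 / 64 := by
    have h1 : (4 * B') ^ 3 ≤ q ^ 3 := pow_le_pow_left₀ (by positivity) hB'q 3
    nlinarith
  have hx2 : x ^ 2 ≤ (q ^ 3 / 64) ^ 2 := by
    rw [← sq_abs]
    exact pow_le_pow_left₀ (abs_nonneg _) hx' 2
  rcases lt_trichotomy s 0 with h | h | h
  · rw [abs_of_neg h] at hst
    have h1 : y + s * t ≤ -(3 / 16 * q ^ 2) := by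
      have := le_of_abs_le hy'
      nlinarith
    have h2 : (3 / 16 * q ^ 2) ^ 3 ≤ (-(y + s * t)) ^ 3 :=
      pow_le_pow_left₀ (by positivity) (by linarith) 3
    have h3 : 4 * (y + s * t) ^ 3 + 27 * x ^ 2 < 0 := by
      have e : (-(y + s * t)) ^ 3 = -(y + s * t) ^ 3 := by ring
      rw [e] at h2
      have hq6 : 0 < q ^ 6 := by positivity
      nlinarith
    exact mul_pos_of_neg_of_neg h h3
  · rw [h, abs_zero, mul_zero] at hs
    linarith
  · rw [abs_of_pos h] at hst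
    have h1 : 0 < y + s * t := by
      have := neg_le_of_abs_le hy'
      have hq2 : 0 < q ^ 2 := by positivity
      nlinarith
    positivity

/-- A positive proportion of the coefficients has the signs. -/
theorem sb_prop (h1 : S_BX) (F : Type) [Field F] [NumberField F] (u : 𝓞 F)
    (hu : ∀ σ : F →+* ℝ, σ (u : F) ≠ 0) : ∃ R₀ C₃ : ℕ, 1 ≤ R₀ ∧
    ∀ (B W : ℕ) (A : Fin (2 * 1) → 𝓞 F), 0 < W → C₃ * W ≤ B →
      (Bx 1 B W A).ncard ≤ R₀ * {a ∈ Bx 1 B W A | Sb u a}.ncard := by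
  obtain ⟨C₁, hC₁, hBX⟩ := h1 F 1
  obtain ⟨U, hU1, hU2, hU3⟩ := exists_U u hu
  refine ⟨C₁ * C₁ * (8 * U) ^ (dg F * dd 1), 8 * U * C₁, by
    have : 0 < C₁ * C₁ * (8 * U) ^ (dg F * dd 1) := by positivity
    exact this, fun B W A hW hWB => ?_⟩
  obtain ⟨B', hB'⟩ : ∃ B', B' = B / (4 * U) := ⟨_, rfl⟩
  obtain ⟨t, ht⟩ : ∃ t, t = W * (B ^ 2 / (2 * U * W)) := ⟨_, rfl⟩
  have hC1W : 8 * U * (C₁ * W) ≤ B := by rw [← mul_assoc]; exact hWB
  have hW8 : 8 * U * W ≤ B :=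
    (Nat.mul_le_mul_left (8 * U) (Nat.le_mul_of_pos_left W hC₁)).trans hC1W
  have hU8 : 8 * U ≤ B := (Nat.le_mul_of_pos_right _ hW).trans hW8
  have hC1B' : C₁ * W ≤ B' := by
    rw [hB', Nat.le_div_iff_mul_le (by omega)]
    calc C₁ * W * (4 * U) = 4 * U * (C₁ * W) := by ring
      _ ≤ 8 * U * (C₁ * W) := Nat.mul_le_mul_right _ (by omega)
      _ ≤ B := hC1W
  have hB'1 : 1 ≤ B' := le_trans (Nat.mul_pos hC₁ hW) hC1B'
  have hBB' : B ≤ 8 * U * B' := by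
    have h5 : B < 4 * U * (B' + 1) := by
      rw [hB']
      exact Nat.lt_mul_div_succ B (by omega)
    have h6 : 4 * U * (B' + 1) ≤ 8 * U * B' := by
      calc 4 * U * (B' + 1) ≤ 4 * U * (2 * B') := Nat.mul_le_mul_left _ (by omega)
        _ = 8 * U * B' := by ring
    exact h5.le.trans h6
  have hB'4 : 4 * U * B' ≤ B := by
    rw [hB']
    exact Nat.mul_div_le B (4 * U)
  have ht2 : 2 * U * t ≤ B ^ 2 := by
    have := Nat.mul_div_le (B ^ 2) (2 * U * W)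
    rw [ht]
    calc 2 * U * (W * (B ^ 2 / (2 * U * W))) = 2 * U * W * (B ^ 2 / (2 * U * W)) := by ring
      _ ≤ B ^ 2 := this
  have ht4 : B ^ 2 ≤ 4 * U * t := by
    have h5 : B ^ 2 < 2 * U * t + 2 * U * W := by
      have := Nat.lt_mul_div_succ (B ^ 2) (b := 2 * U * W) (by positivity)
      rw [ht]
      calc B ^ 2 < 2 * U * W * (B ^ 2 / (2 * U * W) + 1) := this
        _ = 2 * U * (W * (B ^ 2 / (2 * U * W))) + 2 * U * W := by ring
    have h6 : 4 * U * W ≤ B ^ 2 := by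
      calc 4 * U * W ≤ 8 * U * W := by nlinarith
        _ ≤ B := hW8
        _ ≤ B ^ 2 := Nat.le_self_pow (by norm_num) B
    have e1 : 4 * U * t = 2 * (2 * U * t) := by ring
    have e2 : 4 * U * W = 2 * (2 * U * W) := by ring
    omega
  obtain ⟨A', hA'⟩ : ∃ A' : Fin (2 * 1) → 𝓞 F, A' = ![A 0, A 1 - u * (t : 𝓞 F)] := ⟨_, rfl⟩
  have hB4r : 4 * (U : ℝ) * B' ≤ B := by exact_mod_cast hB'4
  have hU1r : (1 : ℝ) ≤ U := by exact_mod_cast hU1
  have hB4r' : 4 * (B' : ℝ) ≤ B := by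
    have : (0 : ℝ) ≤ B' := Nat.cast_nonneg _
    nlinarith
  have hB'3 : 64 * (B' : ℝ) ^ 3 ≤ (B : ℝ) ^ 3 := by
    have h6 := pow_le_pow_left₀ (by positivity) hB4r' 3
    nlinarith
  have hB'2 : 16 * (B' : ℝ) ^ 2 ≤ (B : ℝ) ^ 2 := by
    have h6 := pow_le_pow_left₀ (by positivity) hB4r' 2
    nlinarith
  have ht2r : 2 * (U : ℝ) * (t : ℝ) ≤ (B : ℝ) ^ 2 := by exact_mod_cast ht2
  have ht4r : (B : ℝ) ^ 2 ≤ 4 * (U : ℝ) * (t : ℝ) := by exact_mod_cast ht4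
  obtain ⟨ψ, hψ⟩ : ∃ ψ : (Fin (2 * 1) → 𝓞 F) → (Fin (2 * 1) → 𝓞 F),
      ψ = fun a => ![a 0, a 1 + u * (t : 𝓞 F)] := ⟨_, rfl⟩
  have hψinj : Function.Injective ψ := by
    intro a b hab
    rw [hψ] at hab
    have e0 := congrFun hab 0
    have e1 := congrFun hab 1
    simp at e0 e1
    funext j
    fin_cases j
    · exact e0
    · exact e1
  have hBpos1 : (0 : ℝ) < B := by exact_mod_cast (by omega : 0 < B)
  have hsub : ψ '' (Bx 1 B' W A') ⊆ {a ∈ Bx 1 B W A | Sb u a} := by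
    rintro _ ⟨a, ⟨ha1, ha2⟩, rfl⟩
    have b0 : ∀ φ : F →+* ℂ, ‖φ (a 0)‖ ≤ (B' : ℝ) ^ 3 := by
      intro φ
      have := ha1 0 φ
      simpa using this
    have b1 : ∀ φ : F →+* ℂ, ‖φ (a 1)‖ ≤ (B' : ℝ) ^ 2 := by
      intro φ
      have := ha1 1 φ
      simpa using this
    refine ⟨⟨?_, ?_⟩, ?_⟩
    · intro j φ
      rw [hψ]
      fin_cases j
      · show ‖φ (a 0)‖ ≤ _
        have := b0 φ
        simp
        have h7 : (0 : ℝ) ≤ (B' : ℝ) ^ 3 := by positivity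
        linarith
      · show ‖φ ((a 1 + u * (t : 𝓞 F) : 𝓞 F) : F)‖ ≤ _
        have e : φ ((a 1 + u * (t : 𝓞 F) : 𝓞 F) : F) = φ (a 1) + φ (u : F) * (t : ℂ) := by
          push_cast
          simp
        rw [e]
        refine (norm_add_le _ _).trans ?_
        rw [norm_mul, Complex.norm_natCast]
        have h8 := b1 φ
        have h9 : ‖φ (u : F)‖ * (t : ℝ) ≤ (U : ℝ) * t :=
          mul_le_mul_of_nonneg_right (hU2 φ) (Nat.cast_nonneg _)
        simp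
        have h7 : (0 : ℝ) ≤ (B' : ℝ) ^ 2 := by positivity
        linarith
    · intro j
      rw [hψ]
      fin_cases j
      · have := ha2 0
        rw [hA'] at this
        simp at this ⊢
        exact this
      · have := ha2 1
        rw [hA'] at this
        simp at this ⊢
        have e : a 1 + u * (t : 𝓞 F) - A 1 = a 1 - (A 1 - u * (t : 𝓞 F)) := by ring
        rw [e]
        exact this
    · intro σ
      rw [hψ]
      simp only [Matrix.cons_val_zero, Matrix.cons_val_one]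
      have c0 : |σ (a 0)| ≤ (B' : ℝ) ^ 3 := by
        have := b0 ((algebraMap ℝ ℂ).comp σ)
        simpa using this
      have c1 : |σ (a 1)| ≤ (B' : ℝ) ^ 2 := by
        have := b1 ((algebraMap ℝ ℂ).comp σ)
        simpa using this
      have e : σ ((4 * (a 1 + u * (t : 𝓞 F)) ^ 3 + 27 * (a 0) ^ 2 : 𝓞 F) : F) =
          4 * (σ (a 1) + σ (u : F) * t) ^ 3 + 27 * (σ (a 0)) ^ 2 := by
        push_cast
        simp only [map_add, map_mul, map_pow, map_ofNat, map_natCast]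
      rw [e]
      exact sign_ineq hBpos1 hU1r ht4r (hU3 σ) hB4r (Nat.cast_nonneg _) c0 c1
  obtain ⟨-, f2, -⟩ := hBX B' W A' hW hC1B'
  obtain ⟨g1, -, g3⟩ := hBX B W A hW (le_trans (by nlinarith [Nat.mul_pos hC₁ hW]) hC1W)
  have hc1 : (Bx 1 B' W A').ncard ≤ {a ∈ Bx 1 B W A | Sb u a}.ncard := by
    rw [← Set.ncard_image_of_injective _ hψinj]
    exact Set.ncard_le_ncard hsub (g1.subset fun a ha => ha.1)
  have hWp : 0 < W ^ (2 * 1 * dg F) := pow_pos hW _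
  refine Nat.le_of_mul_le_mul_right ?_ hWp
  calc (Bx 1 B W A).ncard * W ^ (2 * 1 * dg F) ≤ C₁ * B ^ (dg F * dd 1) := g3
    _ ≤ C₁ * (8 * U * B') ^ (dg F * dd 1) := by gcongr
    _ = C₁ * (8 * U) ^ (dg F * dd 1) * B' ^ (dg F * dd 1) := by rw [mul_pow]; ring
    _ ≤ C₁ * (8 * U) ^ (dg F * dd 1) * (C₁ * (Bx 1 B' W A').ncard * W ^ (2 * 1 * dg F)) := by gcongr
    _ ≤ C₁ * (8 * U) ^ (dg F * dd 1) *
        (C₁ * {a ∈ Bx 1 B W A | Sb u a}.ncard * W ^ (2 * 1 * dg F)) := by gcongr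
    _ = _ := by ring

end Pool.Agent.H459.UD
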