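import Pool.Agent.H459.UD.TwD
import Pool.Agent.H459.UD.Rp
import Pool.Agent.H459.UT.FinT

/-!
# A positive proportion, in every residue class (helper459)
-/

set_option autoImplicit false
set_option linter.all false

open Polynomial NumberField IsDedekindDomain
open scoped Classical Pointwise

namespace Pool.Agent.H459.UD

open Pool.Agent.H459.UF (Unr Deg1 fo)
open Pool.Agent.H459.UT (GoodT FamT famT irr_of_rd)
open Pool.Agent.N783.PF
open Pool.Agent.N352.PJ (dd)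
open Pool.Agent.N99.PF (card_fib ht_card scale_inj good_card)
open Pool.Agent.N61.PF (pol pol_monic pol_natDegree pol_coeff0 pol_coeff1 pol_coeff2 eq_pol)

/-- The polynomial divided by the scaling `4`. -/
noncomputable def un {F : Type} [Field F] [NumberField F] (f : (𝓞 F)[X]) : (𝓞 F)[X] :=
  if h : ∃ p : 𝓞 F × 𝓞 F, f.coeff 1 = 16 * p.1 ∧ f.coeff 0 = 64 * p.2 then
    pol h.choose.1 h.choose.2 else 0

theorem un_eq {F : Type} [Field F] [NumberField F] {f : (𝓞 F)[X]} {a b : 𝓞 F}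
    (ha : f.coeff 1 = 16 * a) (hb : f.coeff 0 = 64 * b) : un f = pol a b := by
  have h : ∃ p : 𝓞 F × 𝓞 F, f.coeff 1 = 16 * p.1 ∧ f.coeff 0 = 64 * p.2 := ⟨(a, b), ha, hb⟩
  unfold un
  rw [dif_pos h]
  have h1 := h.choose_spec.1
  have h2 := h.choose_spec.2
  have e1 : a = h.choose.1 := mul_left_cancel₀ (by norm_num) (ha.symm.trans h1)
  have e2 : b = h.choose.2 := mul_left_cancel₀ (by norm_num) (hb.symm.trans h2)
  rw [← e1, ← e2]

theorem ht_un {F : Type} [Field F] [NumberField F] {f : (𝓞 F)[X]} {B B₁ D : ℕ} {a b : 𝓞 F}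
    (ha : f.coeff 1 = 16 * a) (hb : f.coeff 0 = 64 * b) (h : Ht 1 B₁ f) (hB : B₁ * D ≤ B) :
    Ht 1 B ((pol a b).scaleRoots ((D : ℕ) : 𝓞 F)) := by
  have hp : Ht 1 B₁ (pol a b) := by
    refine ⟨pol_monic a b, pol_natDegree a b, pol_coeff2 a b, ?_⟩
    intro j hj σ
    have h1 := h.ht j hj σ
    interval_cases j
    · rw [hb] at h1
      rw [pol_coeff0]
      have e : σ ((64 * b : 𝓞 F) : F) = 64 * σ (b : F) := by
        push_cast
        simp only [map_mul, map_ofNat]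
      rw [e, norm_mul] at h1
      have e2 : ‖(64 : ℂ)‖ = 64 := by simp
      rw [e2] at h1
      have := norm_nonneg (σ (b : F))
      linarith
    · rw [ha] at h1
      rw [pol_coeff1]
      have e : σ ((16 * a : 𝓞 F) : F) = 16 * σ (a : F) := by
        push_cast
        simp only [map_mul, map_ofNat]
      rw [e, norm_mul] at h1
      have e2 : ‖(16 : ℂ)‖ = 16 := by simp
      rw [e2] at h1
      have := norm_nonneg (σ (a : F))
      linarith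
    · rw [pol_coeff2]
      simp
  exact Pool.Agent.N99.PF.ht_scale hp hB

/-- The properties of the polynomials. -/
structure PD {F : Type} [Field F] [NumberField F] (Z : Set (HeightOneSpectrum (𝓞 F))) (m : ℕ)
    (a₁ b₁ u : 𝓞 F) (f : (𝓞 F)[X]) : Prop where
  one : (m : 𝓞 F) ∣ f.coeff 1 - a₁
  zero : (m : 𝓞 F) ∣ f.coeff 0 - b₁
  sgn : ∀ σ : F →+* ℝ,
    0 < σ (u : F) * σ ((4 * (f.coeff 1) ^ 3 + 27 * (f.coeff 0) ^ 2 : 𝓞 F) : F)
  sel : ∀ (M : Type) [Field M] [NumberField M] [Algebra F M] [IsGalois F M] (n : ℕ),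
    Module.finrank F M = 2 ^ n → AdmF F M Z (2 * m) f → SelZero (fo M f)

theorem dp_mod {W : ℕ} {S J : Finset ℕ} (hSW : ∀ q ∈ S, q % (8 * W) = 1 % (8 * W)) (hJ : J ⊆ S) :
    Dp J % (8 * W) = 1 % (8 * W) := by
  have : ∀ T : Finset ℕ, T ⊆ S → (∏ q ∈ T, q) ≡ 1 [MOD 8 * W] := by
    intro T
    induction T using Finset.induction_on with
    | empty => intro _; rfl
    | insert a T ha ih =>
      intro hT
      rw [Finset.prod_insert ha]
      have h1 : a ≡ 1 [MOD 8 * W] := hSW a (hT (Finset.mem_insert_self _ _))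
      have h2 := h1.mul (ih fun x hx => hT (Finset.mem_insert_of_mem hx))
      simpa using h2
  exact this J hJ

theorem mainD (F : Type) [Field F] [NumberField F] (F' : Type) [Field F'] [NumberField F']
    [Algebra F F'] (m : ℕ) (hm0 : 0 < m) (a₁ b₁ u : 𝓞 F) (hu : u ≠ 0)
    (hmin : ∀ v : HeightOneSpectrum (𝓞 F), ((2 * m : ℕ) : 𝓞 F) ∈ v.asIdeal →
      ¬ (a₁ ∈ v.asIdeal ^ 4 ∧ b₁ ∈ v.asIdeal ^ 6)) :
    ∃ (Z : Set (HeightOneSpectrum (𝓞 F))), Z.Finite ∧ (∀ v ∈ Z, Unr F F' v ∧ Deg1 F F' v) ∧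
    (∀ v ∈ Z, ((2 * m : ℕ) : 𝓞 F) ∉ v.asIdeal) ∧
    ∃ c : ℝ, 0 < c ∧ ∃ B₀ : ℕ, ∀ B ≥ B₀, {f : (𝓞 F)[X] | Ht 1 B f}.Finite ∧
    c * ({f : (𝓞 F)[X] | Ht 1 B f}.ncard : ℝ) ≤
      ({f : (𝓞 F)[X] | Ht 1 B f ∧ Irreducible (fF f) ∧ Min 1 f ∧
        PD Z m a₁ b₁ u f}.ncard : ℝ) := by
  obtain ⟨m₀, hm₀⟩ : ∃ m₀ : ℕ, m₀ = 2 * m := ⟨_, rfl⟩
  have hm₀0 : 0 < m₀ := by omega
  have h2m : 2 ∣ m₀ := ⟨m, hm₀⟩
  have hmm : m ∣ m₀ := ⟨2, by rw [hm₀, mul_comm]⟩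
  rw [← hm₀] at hmin ⊢
  have hσu : ∀ σ : F →+* ℝ, σ (u : F) ≠ 0 := fun σ h => by
    rw [map_eq_zero] at h
    exact hu (by exact_mod_cast h)
  obtain ⟨κ, htw⟩ := twD F
  obtain ⟨C, K, hbad⟩ := bad F 1 κ le_rfl
  obtain ⟨R₀, C₃, hR₀, hsb⟩ := sb_prop Pool.Agent.N352.PF.bxT F u hσu
  obtain ⟨M₀, hfamW⟩ := famT Pool.Agent.N75.PF.cu Pool.Agent.N189.PF.ld Pool.Agent.N195.PF.pr
    Pool.Agent.N352.PF.bxT Pool.Agent.N935.PF.WK.wk
    (Pool.Agent.N352.PF.STR331.str Pool.Agent.N75.PF.cu Pool.Agent.N364.PF.cl Pool.Agent.N195.PF.pf)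
    Pool.Agent.N195.PF.dscp Pool.Agent.N195.PF.pf F 1 le_rfl (Sb u) R₀ C₃ hR₀
    (fun v => (m₀ : 𝓞 F) ∈ v.asIdeal) hsb
  obtain ⟨W, f₁, hf₁, hkW, hmW, hM₀, ⟨v₀, hv₀, hv₀'⟩, hirrW, hcong⟩ := gfD F m₀ (max K κ + 1) M₀
    hm₀0 h2m (Nat.succ_pos _) a₁ b₁
  have hKW : max K κ ≤ W := by
    have h1 : max K κ + 1 ≤ W := Nat.le_of_dvd hf₁.pos hkW
    omega
  obtain ⟨c, hc, hfam⟩ := hfamW W f₁ hf₁ hM₀
  obtain ⟨-, Cp, hCp, -, hpt⟩ := Pool.Agent.N490.PF.pts F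
  set D : ℕ := Module.finrank ℚ F * dd 1 with hD
  obtain ⟨r, hr⟩ : ∃ r : ℕ, 2 * (C * (4 * 2 ^ κ : ℝ) ^ D) / c < 2 ^ r :=
    pow_unbounded_of_one_lt _ (by norm_num)
  obtain ⟨S, 𝔮, h, P, hS, hcard, hSW, hspl⟩ := exsD F F' 1 W r (8 * W) le_rfl
    (Nat.mul_pos (by norm_num) hf₁.pos)
  obtain ⟨Z, hZ⟩ : ∃ Z : Set (HeightOneSpectrum (𝓞 F)), Z = {v | ∃ q ∈ S, v.asIdeal = 𝔮 q} :=
    ⟨_, rfl⟩
  -- the primes of `S` are prime to `W`
  have hnotW : ∀ q ∈ S, ∀ v : HeightOneSpectrum (𝓞 F), (q : 𝓞 F) ∈ v.asIdeal →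
      (W : 𝓞 F) ∉ v.asIdeal := by
    intro q hq v hqv hWv
    obtain ⟨a1, a2, -, -, -, a6, a7, -⟩ := hS q hq
    have hco : Nat.Coprime q W := by
      rw [Nat.Prime.coprime_iff_not_dvd a1]
      intro hdv
      have := Nat.le_of_dvd hf₁.pos hdv
      omega
    obtain ⟨x, w, huw⟩ := (Nat.isCoprime_iff_coprime.2 hco)
    apply v.isPrime.ne_top
    rw [Ideal.eq_top_iff_one]
    have e : (1 : 𝓞 F) = (x : 𝓞 F) * (q : 𝓞 F) + (w : 𝓞 F) * (W : 𝓞 F) := by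
      exact_mod_cast (congrArg (fun z : ℤ => (z : 𝓞 F)) huw).symm
    rw [e]
    exact Ideal.add_mem _ (Ideal.mul_mem_left _ _ hqv) (Ideal.mul_mem_left _ _ hWv)
  have hm₀W : ∀ v : HeightOneSpectrum (𝓞 F), (m₀ : 𝓞 F) ∈ v.asIdeal → (W : 𝓞 F) ∈ v.asIdeal := by
    intro v hv
    obtain ⟨w, hw⟩ := hmW
    rw [hw, Nat.cast_mul]
    exact Ideal.mul_mem_right _ _ hv
  refine ⟨Z, ?_, ?_, ?_, ?_⟩
  · have h1 : Z ⊆ (fun v : HeightOneSpectrum (𝓞 F) => v.asIdeal) ⁻¹' (𝔮 '' (S : Set ℕ)) := by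
      rw [hZ]
      rintro v ⟨q, hq, hv⟩
      exact ⟨q, hq, hv.symm⟩
    refine Set.Finite.subset (Set.Finite.preimage ?_ ((Finset.finite_toSet S).image 𝔮)) h1
    exact fun v _ w _ hvw => HeightOneSpectrum.ext hvw
  · rw [hZ]
    rintro v ⟨q, hq, hv⟩
    obtain ⟨-, -, -, -, -, -, a7, -⟩ := hS q hq
    exact hspl q hq v (by rw [hv]; exact a7)
  · rw [hZ]
    rintro v ⟨q, hq, hv⟩ hmv
    obtain ⟨-, -, -, -, -, -, a7, -⟩ := hS q hq
    exact hnotW q hq v (by rw [hv]; exact a7) (hm₀W v hmv)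
  obtain ⟨B₁₀, hB₁₀⟩ := hfam S 𝔮 h P hS
  obtain ⟨N₀, hN₀⟩ := hbad W S 𝔮 h P ((le_max_left _ _).trans hKW) hS
  set Q : ℕ := ∏ q ∈ S, q with hQ
  have hq1 : ∀ q ∈ S, 1 ≤ q := fun q hq => (hS q hq).1.pos
  have hQ1 : 1 ≤ Q := Finset.one_le_prod' hq1
  set Pn : ℕ := (∏ q ∈ S, q ^ (2 * 1)) ^ Module.finrank ℚ F with hPn
  have hP0 : (0 : ℝ) < Pn := by
    have : 0 < Pn := pow_pos (Finset.prod_pos fun q hq => pow_pos (hq1 q hq) _) _
    exact_mod_cast this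
  have hQ0 : (0 : ℝ) < Q := by exact_mod_cast hQ1
  set X₀ : ℕ := max (max B₁₀ (4 ^ N₀)) 1 with hX₀
  refine ⟨c / 2 / (Pn * 2 ^ r * ((2 * Cp) ^ (2 * 1) * (2 * Q) ^ D)), by positivity, X₀ * Q,
    fun B hB => ?_⟩
  set B₁ : ℕ := B / Q with hB₁
  have hBX : X₀ ≤ B₁ := (Nat.le_div_iff_mul_le hQ1).2 hB
  have hb1 : 1 ≤ B₁ := (le_max_right _ _).trans hBX
  have hb2 : B₁₀ ≤ B₁ := ((le_max_left _ _).trans (le_max_left _ _)).trans hBX
  have hb3 : 4 ^ N₀ ≤ B₁ := ((le_max_right _ _).trans (le_max_left _ _)).trans hBX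
  have hBQ : B₁ * Q ≤ B := Nat.div_mul_le_self B Q
  have hBQ2 : B ≤ 2 * Q * B₁ := by
    have e1 : B < B₁ * Q + Q := by
      have := Nat.lt_div_mul_add (a := B) (b := Q) hQ1
      exact this
    nlinarith
  have hB1 : 1 ≤ B := le_trans (by nlinarith) hBQ
  obtain ⟨N, hNa, hNb⟩ : ∃ N : ℕ, 2 ^ κ * B₁ ≤ 4 ^ N ∧ 4 ^ N ≤ 4 * (2 ^ κ * B₁) := by
    refine ⟨Nat.log 4 (2 ^ κ * B₁) + 1, (Nat.lt_pow_succ_log_self (by norm_num) _).le, ?_⟩
    rw [pow_succ, mul_comm]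
    refine Nat.mul_le_mul_left 4 (Nat.pow_log_le_self 4 ?_)
    positivity
  have hNN : N₀ ≤ N := by
    have e1 : 4 ^ N₀ ≤ 4 ^ N := hb3.trans (le_trans (Nat.le_mul_of_pos_left _ (by positivity)) hNa)
    exact (Nat.pow_le_pow_iff_right (by norm_num)).1 e1
  obtain ⟨hfin, hBd⟩ := hN₀ N hNN
  refine ⟨(ht_card hCp hpt 1 B hB1).1, ?_⟩
  set H := {f : (𝓞 F)[X] | Ht 1 B f ∧ Irreducible (fF f) ∧ Min 1 f ∧
    PD Z m a₁ b₁ u f} with hH
  set G := {f : (𝓞 F)[X] | FamT 1 B₁ W (fun v => (m₀ : 𝓞 F) ∈ v.asIdeal) f₁ S P f ∧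
    Sb u (fun j => f.coeff j)} \
    {f : (𝓞 F)[X] | LBad 1 N κ S 𝔮 P f} with hGdef
  have hHf : H.Finite := (ht_card hCp hpt 1 B hB1).1.subset fun f hf => hf.1
  have hGf : G.Finite := (ht_card hCp hpt 1 B₁ hb1).1.subset fun f hf => hf.1.1.ht
  have hG : c / 2 * (B₁ : ℝ) ^ D ≤ Pn * (G.ncard : ℝ) := by
    refine good_card (C := C) (m := r) (κ := κ) hc hP0 B₁ N (hB₁₀ B₁ hb2) hfin ?_ hr ?_
    · rw [hcard] at hBd
      have e2 : Module.finrank ℚ F * (2 * N * dd 1) = 2 * N * D := by rw [hD]; ring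
      rw [e2] at hBd
      exact_mod_cast hBd
    · exact_mod_cast hNb
  have hJ0 : ∀ J ⊆ S, ((Dp J : ℕ) : 𝓞 F) ≠ 0 := by
    intro J hJ
    have : 0 < ∏ q ∈ J, q := Finset.prod_pos fun q hq => hq1 q (hJ hq)
    have h5 : (Dp J : ℕ) ≠ 0 := this.ne'
    exact_mod_cast h5
  have hcard1 := card_fib hGf hHf S (fun J f => (un f).scaleRoots ((Dp J : ℕ) : 𝓞 F)) (by
      intro f hf
      have hF := hf.1.1
      obtain ⟨a, b, ha, hb, ha1, hb1'⟩ := hcong f hF.one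
      have hirr : Irreducible (fF f) := by
        refine irr_of_rd (v := v₀) hF.ht.mon ?_
        rw [Pool.Agent.N78.PF.rd_eq (Pool.Agent.N78.PF.sp_le hv₀) hF.one]
        exact hirrW v₀ hv₀ hv₀'
      obtain ⟨J, hJ, hirrJ, hminJ, hselJ⟩ := htw B₁ N W m₀ f₁ S 𝔮 h P f
        ((le_max_right _ _).trans hKW) hm₀0.ne' h2m hmW hf₁ hS hSW hF hNa hb1 hf.2 hirr a b ha hb
      have hDle : Dp J ≤ Q :=
        Finset.prod_le_prod_of_subset_of_one_le' hJ fun q hq _ => hq1 q hq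
      have hcoef1 : ((pol a b).scaleRoots ((Dp J : ℕ) : 𝓞 F)).coeff 1 =
          a * ((Dp J : ℕ) : 𝓞 F) ^ 2 := by
        rw [pol_scale, pol_coeff1]
      have hcoef0 : ((pol a b).scaleRoots ((Dp J : ℕ) : 𝓞 F)).coeff 0 =
          b * ((Dp J : ℕ) : 𝓞 F) ^ 3 := by
        rw [pol_scale, pol_coeff0]
      -- `D` is one modulo `m₀`
      have hDm : (m₀ : 𝓞 F) ∣ ((Dp J : ℕ) : 𝓞 F) - 1 := by
        have hD0 : 1 ≤ Dp J := Nat.one_le_iff_ne_zero.2 (fun h0 => hJ0 J hJ (by rw [h0]; simp))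
        have h1 : 8 * W ∣ Dp J - 1 := (Nat.modEq_iff_dvd' hD0).1 (dp_mod hSW hJ).symm
        have h2 : m₀ ∣ Dp J - 1 := (hmW.trans (dvd_mul_left _ _)).trans h1
        have h3 : ((m₀ : ℕ) : 𝓞 F) ∣ ((Dp J - 1 : ℕ) : 𝓞 F) := Nat.cast_dvd_cast h2
        rwa [Nat.cast_sub hD0, Nat.cast_one] at h3
      have hm1 : (m : 𝓞 F) ∣ (m₀ : 𝓞 F) := Nat.cast_dvd_cast hmm
      have hm6 : (m : 𝓞 F) ∣ ((m₀ ^ 6 : ℕ) : 𝓞 F) := by
        push_cast
        exact hm1.trans (dvd_pow_self _ (by norm_num))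
      refine ⟨J, hJ, ?_⟩
      show (un f).scaleRoots ((Dp J : ℕ) : 𝓞 F) ∈ H
      rw [un_eq ha hb]
      refine ⟨ht_un ha hb hF.ht ((Nat.mul_le_mul_left _ hDle).trans hBQ), hirrJ, ?_, ?_⟩
      · intro 𝔭 hp h0 hall
        by_cases hmp : (m₀ : 𝓞 F) ∈ 𝔭
        · have hD𝔭 : ((Dp J : ℕ) : 𝓞 F) ∉ 𝔭 := by
            intro hcon
            rw [Dp, Nat.cast_prod] at hcon
            obtain ⟨q, hq, hq𝔭⟩ := (hp.prod_mem_iff).1 hcon
            exact hnotW q (hJ hq) ⟨𝔭, hp, h0⟩ hq𝔭 (hm₀W ⟨𝔭, hp, h0⟩ hmp)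
          have h1 := hall 1 (by norm_num)
          have h2 := hall 0 (by norm_num)
          rw [hcoef1, mul_comm a _] at h1
          rw [hcoef0, mul_comm b _] at h2
          haveI := hp
          have h3 : a ∈ 𝔭 ^ 4 := by
            rcases Ideal.IsPrime.mul_mem_pow 𝔭 h1 with h' | h'
            · exact absurd (hp.mem_of_pow_mem _ h') hD𝔭
            · exact h'
          have h4 : b ∈ 𝔭 ^ 6 := by
            rcases Ideal.IsPrime.mul_mem_pow 𝔭 h2 with h' | h'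
            · exact absurd (hp.mem_of_pow_mem _ h') hD𝔭
            · exact h'
          have hm6p : ((m₀ ^ 6 : ℕ) : 𝓞 F) ∈ 𝔭 ^ 6 := by
            push_cast
            exact Ideal.pow_mem_pow hmp 6
          refine hmin ⟨𝔭, hp, h0⟩ hmp ⟨?_, ?_⟩
          · have e : a₁ = a - (a - a₁) := by ring
            rw [e]
            exact Ideal.sub_mem _ h3 (Ideal.mem_of_dvd _ ha1
              (Ideal.pow_le_pow_right (by norm_num) hm6p))
          · have e : b₁ = b - (b - b₁) := by ring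
            rw [e]
            exact Ideal.sub_mem _ h4 (Ideal.mem_of_dvd _ hb1' hm6p)
        · exact hminJ 𝔭 hp h0 hmp hall
      · refine ⟨?_, ?_, ?_, ?_⟩
        · rw [hcoef1]
          have e : a * ((Dp J : ℕ) : 𝓞 F) ^ 2 - a₁ = (a - a₁) +
              (((Dp J : ℕ) : 𝓞 F) - 1) * (a * (((Dp J : ℕ) : 𝓞 F) + 1)) := by ring
          rw [e]
          exact dvd_add (hm6.trans ha1) ((hm1.trans hDm).mul_right _)
        · rw [hcoef0]
          have e : b * ((Dp J : ℕ) : 𝓞 F) ^ 3 - b₁ = (b - b₁) +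
              (((Dp J : ℕ) : 𝓞 F) - 1) *
                (b * (((Dp J : ℕ) : 𝓞 F) ^ 2 + ((Dp J : ℕ) : 𝓞 F) + 1)) := by ring
          rw [e]
          exact dvd_add (hm6.trans hb1') ((hm1.trans hDm).mul_right _)
        · intro σ
          rw [hcoef1, hcoef0]
          have hs := hf.1.2 σ
          simp only [Fin.val_one, Fin.val_zero] at hs
          rw [ha, hb] at hs
          have e1 : σ ((4 * (16 * a) ^ 3 + 27 * (64 * b) ^ 2 : 𝓞 F) : F) =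
              4096 * (4 * (σ (a : F)) ^ 3 + 27 * (σ (b : F)) ^ 2) := by
            push_cast
            simp only [map_add, map_mul, map_pow, map_ofNat]
            ring
          have e2 : σ ((4 * (a * ((Dp J : ℕ) : 𝓞 F) ^ 2) ^ 3 +
              27 * (b * ((Dp J : ℕ) : 𝓞 F) ^ 3) ^ 2 : 𝓞 F) : F) =
              ((Dp J : ℕ) : ℝ) ^ 6 * (4 * (σ (a : F)) ^ 3 + 27 * (σ (b : F)) ^ 2) := by
            generalize Dp J = D'
            push_cast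
            simp only [map_add, map_mul, map_pow, map_ofNat, map_natCast]
            ring
          rw [e1] at hs
          rw [e2]
          have hD0 : (0 : ℝ) < ((Dp J : ℕ) : ℝ) ^ 6 := by
            have : Dp J ≠ 0 := fun h0 => hJ0 J hJ (by rw [h0]; simp)
            have : (0 : ℝ) < ((Dp J : ℕ) : ℝ) := by exact_mod_cast Nat.pos_of_ne_zero this
            positivity
          have hs' : 0 < σ (u : F) * (4 * (σ (a : F)) ^ 3 + 27 * (σ (b : F)) ^ 2) := by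
            nlinarith
          calc (0 : ℝ) < ((Dp J : ℕ) : ℝ) ^ 6 *
                (σ (u : F) * (4 * (σ (a : F)) ^ 3 + 27 * (σ (b : F)) ^ 2)) :=
                mul_pos hD0 hs'
            _ = _ := by ring
        · intro M _ _ _ _ n hn hA
          rw [← hm₀, hZ] at hA
          exact hselJ M n hn hA) (by
      intro J hJ x hx y hy hxy
      have hx1 := hx.1.1
      have hy1 := hy.1.1
      obtain ⟨a, b, ha, hb, -, -⟩ := hcong x hx1.one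
      obtain ⟨a', b', ha', hb', -, -⟩ := hcong y hy1.one
      have hxy' : (un x).scaleRoots ((Dp J : ℕ) : 𝓞 F) =
          (un y).scaleRoots ((Dp J : ℕ) : 𝓞 F) := hxy
      rw [un_eq ha hb, un_eq ha' hb'] at hxy'
      have h1 := scale_inj (hJ0 J hJ) (by rw [pol_natDegree, pol_natDegree]) hxy'
      have h2 : a = a' := by
        have := congrArg (fun p : (𝓞 F)[X] => p.coeff 1) h1
        simpa [pol_coeff1] using this
      have h3 : b = b' := by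
        have := congrArg (fun p : (𝓞 F)[X] => p.coeff 0) h1
        simpa [pol_coeff0] using this
      rw [eq_pol hx1.ht, eq_pol hy1.ht, ha, hb, ha', hb', h2, h3])
  rw [hcard] at hcard1
  have hcard' : (G.ncard : ℝ) ≤ 2 ^ r * H.ncard := by exact_mod_cast hcard1
  have hM' : ({f : (𝓞 F)[X] | Ht 1 B f}.ncard : ℝ) ≤
      (2 * Cp) ^ (2 * 1) * (2 * Q) ^ D * (B₁ : ℝ) ^ D := by
    have e1 : ({f : (𝓞 F)[X] | Ht 1 B f}.ncard : ℝ) ≤ (2 * Cp) ^ (2 * 1) * (B : ℝ) ^ D :=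
      (ht_card hCp hpt 1 B hB1).2
    refine e1.trans ?_
    rw [mul_assoc, ← mul_pow]
    have e2 : (B : ℝ) ≤ 2 * Q * B₁ := by exact_mod_cast hBQ2
    gcongr
  calc c / 2 / (Pn * 2 ^ r * ((2 * Cp) ^ (2 * 1) * (2 * Q) ^ D)) *
        ({f : (𝓞 F)[X] | Ht 1 B f}.ncard : ℝ)
      ≤ c / 2 / (Pn * 2 ^ r * ((2 * Cp) ^ (2 * 1) * (2 * Q) ^ D)) *
        ((2 * Cp) ^ (2 * 1) * (2 * Q) ^ D * (B₁ : ℝ) ^ D) :=
        mul_le_mul_of_nonneg_left hM' (by positivity)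
    _ = c / 2 * (B₁ : ℝ) ^ D / (Pn * 2 ^ r) := by
        field_simp
    _ ≤ (Pn * (G.ncard : ℝ)) / (Pn * 2 ^ r) := by gcongr
    _ ≤ (Pn * (2 ^ r * H.ncard)) / (Pn * 2 ^ r) := by gcongr
    _ = H.ncard := by field_simp

end Pool.Agent.H459.UD
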