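import Pool.Agent.H459.UF.Dsc
import Pool.Graph.R_pool_sql_team_seeded_63374d34.N2.PQ.Cant

/-!
# Classes of divisors are classes of points (helper459)

For a separable cubic, which may have roots.
-/

set_option autoImplicit false
set_option linter.all false

open Polynomial
open scoped Classical

namespace Pool.Agent.H459.UD

open Pool.Agent.H459.UF (cu cu_monic cu_deg)
open Pool.Agent.N783.PQ (LocIm)

section sqc

variable {R : Type} [CommRing R]

/-- The same class up to squares. -/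
def Sqc (a b : R) : Prop := ∃ s, IsUnit s ∧ a * b = s ^ 2

theorem Sqc.symm {a b : R} (h : Sqc a b) : Sqc b a := by
  obtain ⟨s, hs, h⟩ := h
  exact ⟨s, hs, by rw [mul_comm, h]⟩

theorem Sqc.unit_left {a b : R} (h : Sqc a b) : IsUnit a := by
  obtain ⟨s, hs, h⟩ := h
  exact isUnit_of_mul_isUnit_left (by rw [h]; exact hs.pow 2)

theorem Sqc.unit_right {a b : R} (h : Sqc a b) : IsUnit b := h.symm.unit_left

theorem Sqc.self {a : R} (h : IsUnit a) : Sqc a a := ⟨a, h, by ring⟩

theorem Sqc.trans {a b c : R} (h : Sqc a b) (h' : Sqc b c) : Sqc a c := by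
  have hb := h'.unit_left
  obtain ⟨s, hs, h⟩ := h
  obtain ⟨t, ht, h'⟩ := h'
  obtain ⟨b, rfl⟩ := hb
  refine ⟨s * t * ↑b⁻¹, (hs.mul ht).mul (Units.isUnit _), ?_⟩
  have e : (b : R) * ↑b⁻¹ = 1 := b.mul_inv
  calc a * c = a * c * ((b : R) * ↑b⁻¹) ^ 2 := by rw [e]; ring
    _ = (a * b) * (b * c) * (↑b⁻¹) ^ 2 := by ring
    _ = (s * t * ↑b⁻¹) ^ 2 := by rw [h, h']; ring

theorem Sqc.mul {a b c d : R} (h : Sqc a b) (h' : Sqc c d) : Sqc (a * c) (b * d) := by
  obtain ⟨s, hs, h⟩ := h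
  obtain ⟨t, ht, h'⟩ := h'
  exact ⟨s * t, hs.mul ht, by linear_combination (c * d) * h + s ^ 2 * h'⟩

end sqc

section tor

variable {k : Type} [Field k]

/-- The class of the point `(r, 0)`. -/
noncomputable def tor (A r : k) : k[X] := X ^ 2 + C (r - 1) * X + C (r ^ 2 + r + A)

/-- The other factor. -/
noncomputable def qr (A r : k) : k[X] := X ^ 2 + C r * X + C (r ^ 2 + A)

/-- Representatives of the classes of points. -/
def Cls (A B : k) (β : k[X]) : Prop :=
  β = 1 ∨ (∃ x y : k, y ≠ 0 ∧ y ^ 2 = x ^ 3 + A * x + B ∧ β = C x - X) ∨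
    ∃ r : k, r ^ 3 + A * r + B = 0 ∧ β = tor A r

/-- The class comes from a point. -/
def PtG (A B : k) (h : k[X]) : Prop :=
  ∃ β, Cls A B β ∧ Sqc (AdjoinRoot.mk (cu A B) h) (AdjoinRoot.mk (cu A B) β)

theorem unit_iff {f : k[X]} {p : k[X]} : IsUnit (AdjoinRoot.mk f p) ↔ IsCoprime p f := by
  constructor
  · intro h
    obtain ⟨z, hz⟩ := h.exists_right_inv
    obtain ⟨q, rfl⟩ := AdjoinRoot.mk_surjective z
    rw [← map_mul, ← sub_eq_zero, ← map_one (AdjoinRoot.mk f), ← map_sub,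
      AdjoinRoot.mk_eq_zero] at hz
    obtain ⟨c, hc⟩ := hz
    exact ⟨q, -c, by linear_combination hc⟩
  · rintro ⟨a, b, h⟩
    refine IsUnit.of_mul_eq_one (AdjoinRoot.mk f a) ?_
    have := congrArg (AdjoinRoot.mk f) h
    rw [map_add, map_mul, map_mul, AdjoinRoot.mk_self, mul_zero, add_zero, map_one] at this
    rw [mul_comm]
    exact this

theorem mk_eq {f p q c : k[X]} (h : p - q = f * c) : AdjoinRoot.mk f p = AdjoinRoot.mk f q := by
  rw [← sub_eq_zero, ← map_sub, AdjoinRoot.mk_eq_zero]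
  exact ⟨c, h⟩

theorem cu_fac {A B r : k} (hr : r ^ 3 + A * r + B = 0) : cu A B = (X - C r) * qr A r := by
  have hB : B = -r ^ 3 - A * r := by linear_combination hr
  unfold cu qr
  rw [hB]
  simp only [C_sub, C_neg, C_pow, C_mul, C_add]
  ring

theorem qr_eval (A r : k) : (qr A r).eval r = 3 * r ^ 2 + A := by
  unfold qr
  simp
  ring

/-- The derivative does not vanish at a root. -/
theorem der_ne [CharZero k] {A B r : k} (hd : 4 * A ^ 3 + 27 * B ^ 2 ≠ 0)
    (hr : r ^ 3 + A * r + B = 0) : 3 * r ^ 2 + A ≠ 0 := by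
  intro h
  apply hd
  have hA : A = -3 * r ^ 2 := by linear_combination h
  have hB : B = 2 * r ^ 3 := by
    rw [hA] at hr
    linear_combination hr
  rw [hA, hB]
  ring

theorem cop_qr [CharZero k] {A B r : k} (hd : 4 * A ^ 3 + 27 * B ^ 2 ≠ 0)
    (hr : r ^ 3 + A * r + B = 0) : IsCoprime (X - C r) (qr A r) := by
  refine (irreducible_X_sub_C r).coprime_iff_not_dvd.2 fun h => der_ne hd hr ?_
  rw [← qr_eval]
  exact dvd_iff_isRoot.1 h

theorem tor_eq (A r : k) : tor A r = (C r - X) + qr A r := by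
  unfold tor qr
  simp only [C_sub, C_pow, C_add, C_1]
  ring

theorem cop_tor [CharZero k] {A B r : k} (hd : 4 * A ^ 3 + 27 * B ^ 2 ≠ 0)
    (hr : r ^ 3 + A * r + B = 0) : IsCoprime (tor A r) (cu A B) := by
  have h := cop_qr hd hr
  rw [cu_fac hr, tor_eq]
  refine IsCoprime.mul_right ?_ ?_
  · have e : C r - X + qr A r = qr A r + (X - C r) * (-1) := by ring
    rw [e]
    exact (h.symm.add_mul_left_left _)
  · have e : C r - X + qr A r = -(X - C r) + qr A r * 1 := by ring
    rw [e]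
    exact (h.neg_left.add_mul_left_left _)

theorem cls_cop [CharZero k] {A B : k} (hd : 4 * A ^ 3 + 27 * B ^ 2 ≠ 0) {β : k[X]}
    (h : Cls A B β) : IsCoprime β (cu A B) := by
  rcases h with rfl | ⟨x, y, hy, hxy, rfl⟩ | ⟨r, hr, rfl⟩
  · exact isCoprime_one_left
  · have e : (C x - X : k[X]) = -(X - C x) := by ring
    rw [e]
    refine IsCoprime.neg_left ((irreducible_X_sub_C x).coprime_iff_not_dvd.2 fun h => hy ?_)
    have h1 := dvd_iff_isRoot.1 h
    have h2 : y ^ 2 = 0 := by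
      rw [hxy, ← h1]
      simp [cu]
    exact pow_eq_zero_iff (two_ne_zero) |>.1 h2
  · exact cop_tor hd hr

/-- Sum with a point of order two. -/
theorem cls_tor [CharZero k] {A B : k} (hd : 4 * A ^ 3 + 27 * B ^ 2 ≠ 0) {β : k[X]}
    (h : Cls A B β) {r : k} (hr : r ^ 3 + A * r + B = 0) :
    ∃ β', Cls A B β' ∧ Sqc (AdjoinRoot.mk (cu A B) (β * tor A r)) (AdjoinRoot.mk (cu A B) β') := by
  have hu : ∀ {p : k[X]}, IsCoprime p (cu A B) → IsUnit (AdjoinRoot.mk (cu A B) p) := fun h =>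
    unit_iff.2 h
  have hN := der_ne hd hr
  have hB : B = -r ^ 3 - A * r := by linear_combination hr
  rcases id h with rfl | ⟨x, y, hy, hxy, rfl⟩ | ⟨r', hr', rfl⟩
  · refine ⟨tor A r, Or.inr (Or.inr ⟨r, hr, rfl⟩), ?_⟩
    rw [one_mul]
    exact Sqc.self (hu (cop_tor hd hr))
  · have hxr : x - r ≠ 0 := by
      intro h0
      have hx : x = r := sub_eq_zero.1 h0
      apply hy
      have h2 : y ^ 2 = 0 := by rw [hxy, hx, hr]
      exact pow_eq_zero_iff (two_ne_zero) |>.1 h2
    obtain ⟨x', hx'⟩ : ∃ x', x' = r + (3 * r ^ 2 + A) / (x - r) := ⟨_, rfl⟩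
    obtain ⟨y', hy'⟩ : ∃ y', y' = -(3 * r ^ 2 + A) * y / (x - r) ^ 2 := ⟨_, rfl⟩
    have hy2 : y ^ 2 = (x - r) * (x ^ 2 + r * x + (r ^ 2 + A)) := by
      rw [hxy, hB]
      ring
    have hcls : Cls A B (C x' - X) := by
      refine Or.inr (Or.inl ⟨x', y', ?_, ?_, rfl⟩)
      · rw [hy']
        exact div_ne_zero (mul_ne_zero (neg_ne_zero.2 hN) hy) (pow_ne_zero 2 hxr)
      · rw [hx', hy', hB, div_pow, mul_pow, hy2]
        field_simp
        ring
    refine ⟨C x' - X, hcls, ?_⟩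
    obtain ⟨t, ht⟩ : ∃ t, t = y / (x - r) := ⟨_, rfl⟩
    obtain ⟨s, hs⟩ : ∃ s : k[X], s = C t * (C r - X) + qr A r := ⟨_, rfl⟩
    have htt : t ^ 2 = x + x' + r := by
      rw [ht, hx', div_pow, hy2]
      field_simp
      ring
    have hxx : x * x' - t ^ 2 * r = r ^ 2 + A := by
      rw [htt, hx']
      field_simp
      ring
    have key : ((C x - X) * tor A r) * (C x' - X) - s ^ 2 = cu A B * (-C ((1 - t) ^ 2)) := by
      have e1 : (C x - X) * (C x' - X) - C (t ^ 2) * (C r - X) = qr A r := by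
        unfold qr
        rw [← hxx]
        have e2 : (C r : k[X]) = C (t ^ 2) - C x - C x' := by
          rw [htt]
          simp only [C_add]
          ring
        simp only [C_sub, C_mul]
        linear_combination (-X) * e2
      rw [cu_fac hr, hs, tor_eq]
      simp only [C_sub, C_pow, C_1] at e1 ⊢
      linear_combination (C r - X + qr A r) * e1
    have hsu : IsUnit (AdjoinRoot.mk (cu A B) s) := by
      have h1 : IsUnit (AdjoinRoot.mk (cu A B) s ^ 2) := by
        rw [← map_pow, ← mk_eq key]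
        exact hu (((cls_cop hd h).mul_left (cop_tor hd hr)).mul_left (cls_cop hd hcls))
      exact (isUnit_pow_iff two_ne_zero).1 h1
    exact ⟨AdjoinRoot.mk _ s, hsu, by rw [← map_mul, ← map_pow]; exact mk_eq key⟩
  · by_cases hrr : r' = r
    · subst hrr
      refine ⟨1, Or.inl rfl, AdjoinRoot.mk _ (tor A r'), hu (cop_tor hd hr), ?_⟩
      rw [map_one, mul_one, map_mul, pow_two]
    · have hrs : r - r' ≠ 0 := fun h0 => hrr (sub_eq_zero.1 h0).symm
      obtain ⟨r'', h2⟩ : ∃ r'', r'' = -r - r' := ⟨_, rfl⟩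
      have hA : A = -(r ^ 2 + r * r' + r' ^ 2) := by
        have h3 : (r - r') * (r ^ 2 + r * r' + r' ^ 2 + A) = 0 := by linear_combination hr - hr'
        rcases mul_eq_zero.1 h3 with h4 | h4
        · exact absurd h4 hrs
        · linear_combination h4
      have hB' : B = r * r' * (r + r') := by
        rw [hB, hA]
        ring
      have hr2 : r'' ^ 3 + A * r'' + B = 0 := by
        rw [h2, hB', hA]
        ring
      refine ⟨tor A r'', Or.inr (Or.inr ⟨r'', hr2, rfl⟩), ?_⟩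
      have key : ∃ c : k[X], (tor A r' * tor A r) * tor A r'' - (C 3 * X ^ 2 + C A) ^ 2 =
          cu A B * c := by
        refine ⟨cu A B - 3 * X ^ 2 - 6 * X - 1 + 2 * C A, ?_⟩
        unfold tor cu
        rw [h2, hB', hA]
        simp only [C_sub, C_neg, C_pow, C_mul, C_add, C_1, C_0, C_ofNat]
        ring
      obtain ⟨c, key⟩ := key
      have hsu : IsUnit (AdjoinRoot.mk (cu A B) (C 3 * X ^ 2 + C A)) := by
        have h1 : IsUnit (AdjoinRoot.mk (cu A B) (C 3 * X ^ 2 + C A) ^ 2) := by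
          rw [← map_pow, ← mk_eq key]
          exact hu (((cop_tor hd hr').mul_left (cop_tor hd hr)).mul_left (cop_tor hd hr2))
        exact (isUnit_pow_iff two_ne_zero).1 h1
      exact ⟨AdjoinRoot.mk _ _, hsu, by rw [← map_mul, ← map_pow]; exact mk_eq key⟩

/-- The contribution of the common factor. -/
theorem com [CharZero k] {A B : k} (hd : 4 * A ^ 3 + 27 * B ^ 2 ≠ 0) {g f' v' : k[X]}
    (hg : g.Monic) (hf : cu A B = g * f') (hc : IsCoprime v' f') (hgf : IsCoprime g f') :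
    ∃ β, (β = 1 ∨ ∃ r : k, r ^ 3 + A * r + B = 0 ∧ β = tor A r) ∧
      Sqc (AdjoinRoot.mk (cu A B) ((-1) ^ g.natDegree * (g * v' ^ 2 - f')))
        (AdjoinRoot.mk (cu A B) β) := by
  have hu : ∀ {p : k[X]}, IsCoprime p (cu A B) → IsUnit (AdjoinRoot.mk (cu A B) p) := fun h =>
    unit_iff.2 h
  have hfm : f'.Monic := hg.of_mul_monic_left (by rw [← hf]; exact cu_monic A B)
  have hdeg : g.natDegree + f'.natDegree = 3 := by
    rw [← hg.natDegree_mul hfm, ← hf, cu_deg]
  have hw : IsCoprime (g * v' ^ 2 - f') (cu A B) := by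
    rw [hf]
    refine IsCoprime.mul_right ?_ ?_
    · have e : g * v' ^ 2 - f' = -f' + g * v' ^ 2 := by ring
      rw [e]
      exact hgf.symm.neg_left.add_mul_left_left _
    · have e : g * v' ^ 2 - f' = g * v' ^ 2 + f' * (-1) := by ring
      rw [e]
      exact (hgf.mul_left (hc.pow_left)).add_mul_left_left _
  have hroot : ∀ {r : k}, (X - C r) ∣ cu A B → r ^ 3 + A * r + B = 0 := by
    intro r h
    have h1 := dvd_iff_isRoot.1 h
    rw [IsRoot, cu] at h1
    simpa using h1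
  have hun : ∀ {s t : k[X]} {c : k[X]}, IsCoprime t (cu A B) → t - s ^ 2 = cu A B * c →
      IsUnit (AdjoinRoot.mk (cu A B) s) := by
    intro s t c ht h
    have h1 : IsUnit (AdjoinRoot.mk (cu A B) s ^ 2) := by
      rw [← map_pow, ← mk_eq h]
      exact hu ht
    exact (isUnit_pow_iff two_ne_zero).1 h1
  have hneg : ∀ {p : k[X]} (n : ℕ), IsCoprime p (cu A B) → IsCoprime ((-1) ^ n * p) (cu A B) := by
    intro p n h
    exact (isCoprime_one_left.neg_left.pow_left).mul_left h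
  obtain h0 | h1 | h2 | h3 : g.natDegree = 0 ∨ g.natDegree = 1 ∨ g.natDegree = 2 ∨
      g.natDegree = 3 := by omega
  · have hg1 : g = 1 := hg.natDegree_eq_zero.1 h0
    subst hg1
    rw [one_mul] at hf
    have key : (-1) ^ (1 : k[X]).natDegree * (1 * v' ^ 2 - f') * 1 - v' ^ 2 = cu A B * (-1) := by
      rw [natDegree_one, hf]
      ring
    refine ⟨1, Or.inl rfl, AdjoinRoot.mk _ v', hun ?_ key, by
      rw [← map_mul, ← map_pow]
      exact mk_eq key⟩
    rw [mul_one]
    exact hneg _ hw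
  · obtain ⟨r, hr⟩ : ∃ r : k, g = X - C r := ⟨-g.coeff 0, by
      rw [hg.eq_X_add_C h1]
      simp⟩
    have hr0 : r ^ 3 + A * r + B = 0 := hroot ⟨f', by rw [← hr]; exact hf⟩
    have hf' : f' = qr A r := by
      have h4 := cu_fac hr0
      rw [hf, hr] at h4
      exact mul_left_cancel₀ (X_sub_C_ne_zero r) h4
    have key : (-1) ^ g.natDegree * (g * v' ^ 2 - f') * tor A r -
        ((C r - X) * v' + qr A r) ^ 2 = cu A B * (-(1 - v') ^ 2) := by
      rw [h1, cu_fac hr0, tor_eq, hf', hr]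
      ring
    refine ⟨tor A r, Or.inr ⟨r, hr0, rfl⟩, AdjoinRoot.mk _ _, hun ?_ key, by
      rw [← map_mul, ← map_pow]
      exact mk_eq key⟩
    exact (hneg _ hw).mul_left (cop_tor hd hr0)
  · have hf1 : f'.natDegree = 1 := by omega
    obtain ⟨r, hr⟩ : ∃ r : k, f' = X - C r := ⟨-f'.coeff 0, by
      rw [hfm.eq_X_add_C hf1]
      simp⟩
    have hr0 : r ^ 3 + A * r + B = 0 := hroot ⟨g, by rw [← hr, hf]; ring⟩
    have hg' : g = qr A r := by
      have h4 := cu_fac hr0
      rw [hf, hr, mul_comm] at h4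
      exact mul_left_cancel₀ (X_sub_C_ne_zero r) h4
    have key : (-1) ^ g.natDegree * (g * v' ^ 2 - f') * tor A r -
        ((C r - X) + qr A r * v') ^ 2 = cu A B * (-(1 - v') ^ 2) := by
      rw [h2, cu_fac hr0, tor_eq, hr, hg']
      ring
    refine ⟨tor A r, Or.inr ⟨r, hr0, rfl⟩, AdjoinRoot.mk _ _, hun ?_ key, by
      rw [← map_mul, ← map_pow]
      exact mk_eq key⟩
    exact (hneg _ hw).mul_left (cop_tor hd hr0)
  · have hf0 : f'.natDegree = 0 := by omega
    have hf1 : f' = 1 := hfm.natDegree_eq_zero.1 hf0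
    subst hf1
    rw [mul_one] at hf
    have key : (-1) ^ g.natDegree * (g * v' ^ 2 - 1) * 1 - 1 ^ 2 = cu A B * (-v' ^ 2) := by
      rw [h3, hf]
      ring
    refine ⟨1, Or.inl rfl, AdjoinRoot.mk _ 1, hun ?_ key, by
      rw [← map_mul, ← map_pow]
      exact mk_eq key⟩
    rw [mul_one]
    exact hneg _ hw

theorem cu_sep [CharZero k] {A B : k} (hd : 4 * A ^ 3 + 27 * B ^ 2 ≠ 0) : (cu A B).Separable := by
  have e : derivative (cu A B) = C 3 * X ^ 2 + C A := by
    unfold cu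
    simp only [derivative_add, derivative_mul, derivative_C, derivative_X, derivative_X_pow,
      C_ofNat]
    simp
    rfl
  unfold Separable
  rw [e]
  refine ⟨C (4 * A ^ 3 + 27 * B ^ 2)⁻¹ * (C (18 * A) * X - C (27 * B)) * (-1),
    C (4 * A ^ 3 + 27 * B ^ 2)⁻¹ * (C (6 * A) * X ^ 2 - C (9 * B) * X + C (4 * A ^ 2)), ?_⟩
  have e2 : (C (4 * A ^ 3 + 27 * B ^ 2)⁻¹ : k[X]) * C (4 * A ^ 3 + 27 * B ^ 2) = 1 := by
    rw [← C_mul, inv_mul_cancel₀ hd, C_1]
  have e3 : (C (4 * A ^ 3 + 27 * B ^ 2) : k[X]) = 4 * C A ^ 3 + 27 * C B ^ 2 := by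
    simp only [C_add, C_mul, C_pow, C_ofNat]
  rw [e3] at e2
  unfold cu
  simp only [C_mul, C_pow, C_ofNat]
  linear_combination e2

/-- Reduction of a divisor to a point. -/
theorem red [CharZero k] {A B : k} (hd : 4 * A ^ 3 + 27 * B ^ 2 ≠ 0) : ∀ (n : ℕ) (u v : k[X]),
    u.Monic → u.natDegree = n →
    IsCoprime u (cu A B) → u ∣ v ^ 2 - cu A B → PtG A B ((-1) ^ n * u) := by
  have hu' : ∀ {p : k[X]}, IsCoprime p (cu A B) → IsUnit (AdjoinRoot.mk (cu A B) p) := fun h =>
    unit_iff.2 h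
  intro n
  induction n using Nat.strong_induction_on with
  | _ n ih =>
    intro u v hu hn hc hd0
    rcases Nat.lt_or_ge n 2 with hn2 | hn2
    · rcases Nat.lt_or_ge n 1 with hn1 | hn1
      · have h0 : n = 0 := by omega
        have h1 : u = 1 := (Monic.natDegree_eq_zero hu).1 (by omega)
        refine ⟨1, Or.inl rfl, ?_⟩
        rw [h0, h1, pow_zero, one_mul, map_one]
        exact Sqc.self isUnit_one
      · have h0 : n = 1 := by omega
        obtain ⟨c, hcu⟩ : ∃ c, u = X - C c := ⟨-u.coeff 0, by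
          rw [hu.eq_X_add_C (by omega)]
          simp⟩
        have h1 : v.eval c ^ 2 = c ^ 3 + A * c + B := by
          rw [hcu, dvd_iff_isRoot, IsRoot, eval_sub, eval_pow, sub_eq_zero] at hd0
          rw [hd0]
          simp [cu]
        have hy : v.eval c ≠ 0 := by
          intro h2
          rw [h2] at h1
          have h3 : (X - C c) ∣ cu A B := by
            rw [dvd_iff_isRoot, IsRoot, cu]
            simp
            linear_combination -h1
          rw [hcu] at hc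
          exact not_isUnit_X_sub_C c (hc.isUnit_of_dvd' dvd_rfl h3)
        refine ⟨C c - X, Or.inr (Or.inl ⟨c, v.eval c, hy, h1, rfl⟩), ?_⟩
        have e : (-1 : k[X]) ^ n * u = C c - X := by
          rw [h0, hcu]
          ring
        rw [e]
        refine Sqc.self (hu' ?_)
        rw [← e]
        exact (isCoprime_one_left.neg_left.pow_left).mul_left hc
    -- reduce `v`
    have hune : u ≠ 1 := by
      rintro rfl
      rw [natDegree_one] at hn
      omega
    obtain ⟨v₁, hv₁⟩ : ∃ v₁, v₁ = v %ₘ u := ⟨_, rfl⟩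
    have hv1d : v₁.natDegree < n := by
      rw [hv₁, ← hn]
      exact natDegree_modByMonic_lt v hu hune
    have hd1 : u ∣ v₁ ^ 2 - cu A B := by
      have h1 : u ∣ v - v₁ := ⟨v /ₘ u, by
        have := modByMonic_add_div v u
        rw [hv₁]
        linear_combination -this⟩
      have h2 : v₁ ^ 2 - cu A B = (v ^ 2 - cu A B) - (v - v₁) * (v + v₁) := by ring
      rw [h2]
      exact dvd_sub hd0 (Dvd.dvd.mul_right h1 _)
    clear hv₁ hd0 v
    -- the common factor
    obtain ⟨g, v', f', hgm, hgv, hgf, hcop⟩ : ∃ g v' f' : k[X], g.Monic ∧ v₁ = g * v' ∧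
        cu A B = g * f' ∧ IsCoprime v' f' := by
      obtain ⟨g₀, hg₀⟩ : ∃ g₀, g₀ = EuclideanDomain.gcd v₁ (cu A B) := ⟨_, rfl⟩
      have h0 : g₀ ≠ 0 := by
        intro h0
        rw [hg₀, EuclideanDomain.gcd_eq_zero_iff] at h0
        exact (cu_monic A B).ne_zero h0.2
      have hl : g₀.leadingCoeff ≠ 0 := leadingCoeff_ne_zero.2 h0
      obtain ⟨a, ha⟩ : g₀ ∣ v₁ := by rw [hg₀]; exact EuclideanDomain.gcd_dvd_left _ _
      obtain ⟨b, hb⟩ : g₀ ∣ cu A B := by rw [hg₀]; exact EuclideanDomain.gcd_dvd_right _ _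
      have hab := EuclideanDomain.gcd_eq_gcd_ab v₁ (cu A B)
      rw [← hg₀] at hab
      obtain ⟨x, hx⟩ : ∃ x, x = EuclideanDomain.gcdA v₁ (cu A B) := ⟨_, rfl⟩
      obtain ⟨y, hy⟩ : ∃ y, y = EuclideanDomain.gcdB v₁ (cu A B) := ⟨_, rfl⟩
      rw [← hx, ← hy] at hab
      have hxy : a * x + b * y = 1 := by
        have h5 : g₀ * (a * x + b * y) = g₀ * 1 := by
          rw [mul_one]
          conv_rhs => rw [hab, ha, hb]
          ring
        exact mul_left_cancel₀ h0 h5
      have hll : (C g₀.leadingCoeff⁻¹ : k[X]) * C g₀.leadingCoeff = 1 := by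
        rw [← C_mul, inv_mul_cancel₀ hl, C_1]
      refine ⟨g₀ * C g₀.leadingCoeff⁻¹, C g₀.leadingCoeff * a, C g₀.leadingCoeff * b,
        monic_mul_leadingCoeff_inv h0, ?_, ?_, ⟨x * C g₀.leadingCoeff⁻¹, y * C g₀.leadingCoeff⁻¹, ?_⟩⟩
      · conv_lhs => rw [ha]
        linear_combination (-g₀ * a) * hll
      · conv_lhs => rw [hb]
        linear_combination (-g₀ * b) * hll
      · linear_combination (a * x + b * y) * hll + hxy
    have hsep := cu_sep hd
    have hgfc : IsCoprime g f' := by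
      rw [hgf] at hsep
      exact hsep.isCoprime
    obtain ⟨w, hw⟩ : ∃ w, w = v₁ ^ 2 - cu A B := ⟨_, rfl⟩
    rw [← hw] at hd1
    -- degree and leading coefficient of `w`
    obtain ⟨c, d, hc0, hlc, hwd, hcd, hdn⟩ : ∃ (c : k) (d : ℕ), c ≠ 0 ∧ w.leadingCoeff = c ∧
        w.natDegree = d ∧ IsSquare (c * (-1) ^ d) ∧ d < 2 * n := by
      rcases Nat.lt_or_ge v₁.natDegree 2 with hlt | hge
      · have hdeg : (v₁ ^ 2).natDegree < (cu A B).natDegree := by
          rw [cu_deg, natDegree_pow]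
          omega
        refine ⟨-1, 3, by simp, ?_, ?_, ?_, by omega⟩
        · have hdeg' : (v₁ ^ 2).degree < (cu A B).degree := by
            rw [degree_eq_natDegree (cu_monic A B).ne_zero, cu_deg]
            refine lt_of_le_of_lt degree_le_natDegree ?_
            rw [natDegree_pow]
            exact_mod_cast (by omega : 2 * v₁.natDegree < 3)
          rw [hw, ← neg_sub, leadingCoeff_neg, leadingCoeff_sub_of_degree_lt hdeg', cu_monic A B]
        · rw [hw, ← neg_sub, natDegree_neg, natDegree_sub_eq_left_of_natDegree_lt hdeg, cu_deg]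
        · exact ⟨1, by norm_num⟩
      · have hv0 : v₁ ≠ 0 := by
          rintro rfl
          simp at hge
        have hlt' : (cu A B).degree < (v₁ ^ 2).degree := by
          rw [degree_eq_natDegree (cu_monic A B).ne_zero, degree_eq_natDegree (pow_ne_zero 2 hv0),
            cu_deg, natDegree_pow]
          exact_mod_cast (by omega : 3 < 2 * v₁.natDegree)
        refine ⟨v₁.leadingCoeff ^ 2, 2 * v₁.natDegree,
          pow_ne_zero 2 (leadingCoeff_ne_zero.2 hv0), ?_, ?_, ?_, by omega⟩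
        · rw [hw, leadingCoeff_sub_of_degree_lt hlt', leadingCoeff_pow]
        · rw [hw, natDegree_eq_of_degree_eq (degree_sub_eq_left_of_degree_lt hlt'), natDegree_pow]
        · rw [pow_mul, neg_one_sq, one_pow, mul_one]
          exact ⟨v₁.leadingCoeff, by ring⟩
    obtain ⟨w', hw'⟩ : ∃ w', w' = g * v' ^ 2 - f' := ⟨_, rfl⟩
    have hww : w = g * w' := by
      rw [hw, hw', hgv, hgf]
      ring
    have hw'c : IsCoprime w' (cu A B) := by
      rw [hgf, hw']
      refine IsCoprime.mul_right ?_ ?_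
      · have e : g * v' ^ 2 - f' = -f' + g * v' ^ 2 := by ring
        rw [e]
        exact hgfc.symm.neg_left.add_mul_left_left _
      · have e : g * v' ^ 2 - f' = g * v' ^ 2 + f' * (-1) := by ring
        rw [e]
        exact (hgfc.mul_left (hcop.pow_left)).add_mul_left_left _
    have hug : IsCoprime u g := by
      rw [hgf] at hc
      exact hc.of_mul_right_left
    obtain ⟨u₂, hu₂⟩ : u ∣ w' := by
      rw [hww] at hd1
      exact hug.dvd_of_dvd_mul_left hd1
    obtain ⟨c', hc'⟩ : ∃ c', c' = c⁻¹ := ⟨_, rfl⟩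
    have hcc : c * c' = 1 := by rw [hc']; exact mul_inv_cancel₀ hc0
    obtain ⟨u₃, hu₃⟩ : ∃ u₃, u₃ = C c' * u₂ := ⟨_, rfl⟩
    have hlc2 : w'.leadingCoeff = c := by
      rw [← hlc, hww, leadingCoeff_mul, hgm.leadingCoeff, one_mul]
    have hw'0 : w' ≠ 0 := by
      rintro h0
      rw [h0, leadingCoeff_zero] at hlc2
      exact hc0 hlc2.symm
    have hlu2 : u₂.leadingCoeff = c := by
      rw [← hlc2, hu₂, leadingCoeff_mul, hu.leadingCoeff, one_mul]
    have hu3m : u₃.Monic := by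
      rw [hu₃, Monic, leadingCoeff_mul, leadingCoeff_C, hlu2, mul_comm, hcc]
    have hu2' : u₂ = C c * u₃ := by
      rw [hu₃, ← mul_assoc, ← C_mul, hcc, C_1, one_mul]
    have hd3 : g.natDegree + (n + u₃.natDegree) = d := by
      rw [← hwd, hww, hgm.natDegree_mul' hw'0, hu₂, hu2']
      have h5 : u * (C c * u₃) = C c * (u * u₃) := by ring
      rw [h5, natDegree_C_mul hc0, hu.natDegree_mul hu3m, hn]
    have hw3 : w' = C c * (u * u₃) := by
      rw [hu₂, hu2']
      ring
    have hu3c : IsCoprime u₃ (cu A B) := by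
      rw [hw3] at hw'c
      exact hw'c.of_mul_left_right.of_mul_left_right
    obtain ⟨β₁, hβ₁, h1⟩ := ih u₃.natDegree (by omega) u₃ v₁ hu3m rfl hu3c (by
      rw [← hw, hww, hw3]
      exact ⟨g * C c * u, by ring⟩)
    obtain ⟨β₂, hβ₂, h2⟩ := com hd hgm hgf hcop hgfc
    rw [← hw'] at h2
    -- the relation
    have h3 : Sqc (AdjoinRoot.mk (cu A B) ((-1) ^ n * u))
        (AdjoinRoot.mk (cu A B) ((-1) ^ u₃.natDegree * u₃) *
          AdjoinRoot.mk (cu A B) ((-1) ^ g.natDegree * w')) := by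
      obtain ⟨e, he⟩ := hcd
      refine ⟨AdjoinRoot.mk (cu A B) (C (e * c') * w'), hu' ?_, ?_⟩
      · have he0 : e ≠ 0 := by
          rintro rfl
          rw [mul_zero, mul_eq_zero] at he
          rcases he with h | h
          · exact hc0 h
          · exact absurd h (pow_ne_zero _ (neg_ne_zero.2 one_ne_zero))
        have hc'0 : c' ≠ 0 := by rw [hc']; exact inv_ne_zero hc0
        refine IsCoprime.mul_left ⟨C (e * c')⁻¹, 0, ?_⟩ hw'c
        rw [zero_mul, add_zero, ← C_mul, inv_mul_cancel₀ (mul_ne_zero he0 hc'0), C_1]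
      · rw [← map_mul, ← map_mul, ← map_pow]
        congr 1
        have h4 : (C (c * (-1) ^ d) : k[X]) = C (e * e) := by rw [he]
        have h5 : (C c : k[X]) * C c' = 1 := by rw [← C_mul, hcc, C_1]
        rw [← hd3] at h4
        simp only [C_mul, C_pow, C_neg, C_1, pow_add] at h4 ⊢
        obtain ⟨P, hP⟩ : ∃ P : k[X], P = (-1) ^ n := ⟨_, rfl⟩
        obtain ⟨Q, hQ⟩ : ∃ Q : k[X], Q = (-1) ^ u₃.natDegree := ⟨_, rfl⟩
        obtain ⟨G, hG⟩ : ∃ G : k[X], G = (-1) ^ g.natDegree := ⟨_, rfl⟩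
        rw [← hP, ← hQ, ← hG] at h4 ⊢
        linear_combination (C c' ^ 2 * w' ^ 2) * h4 -
          (C c * (G * P * Q) * C c' ^ 2 * w') * hw3 -
          (G * P * Q * u * u₃ * w' * (C c * C c' + 1)) * h5
    have h4 := h3.trans (h1.mul h2)
    rcases hβ₂ with rfl | ⟨r, hr, rfl⟩
    · refine ⟨β₁, hβ₁, ?_⟩
      rw [map_one, mul_one] at h4
      exact h4
    · obtain ⟨β', hβ', h5⟩ := cls_tor hd hβ₁ hr
      rw [← map_mul] at h4
      exact ⟨β', hβ', h4.trans h5⟩

theorem ptG_of_locIm [CharZero k] {A B : k} (hd : 4 * A ^ 3 + 27 * B ^ 2 ≠ 0) {h : k[X]}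
    (hh : IsCoprime h (cu A B)) (H : LocIm k (cu A B) h) : PtG A B h := by
  obtain ⟨u, v, s, h1, h2, h3, h4⟩ := Pool.Agent.N2.PQ.cant k 1 (cu A B) h (cu_monic A B)
    (cu_deg A B) H
  obtain ⟨β, hβ, h5⟩ := red hd u.natDegree u v h1 rfl h2 h3
  refine ⟨β, hβ, Sqc.trans ⟨AdjoinRoot.mk (cu A B) s, ?_, ?_⟩ h5⟩
  · have h6 : IsUnit (AdjoinRoot.mk (cu A B) s ^ 2) := by
      rw [← map_pow]
      obtain ⟨c, hc⟩ := h4
      rw [← mk_eq hc]
      exact unit_iff.2 (hh.mul_left ((isCoprime_one_left.neg_left.pow_left).mul_left h2))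
    exact (isUnit_pow_iff two_ne_zero).1 h6
  · obtain ⟨c, hc⟩ := h4
    rw [← map_mul, ← map_pow]
    exact mk_eq hc

end tor

end Pool.Agent.H459.UD
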