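import Pool.Agent.H459.UD.Lld
import Pool.Agent.H459.UD.Sc
import Pool.Agent.H459.UD.ExsD
import Pool.Agent.H459.UD.GfD
import Pool.Agent.H459.UT.TwT
import Pool.Agent.H459.UF.TowU

/-!
# Twists with zero 2-Selmer groups, in a residue class (helper459)
-/

set_option autoImplicit false
set_option linter.all false

open Polynomial IsDedekindDomain NumberField WithZero
open scoped Classical IntermediateField

namespace Pool.Agent.H459.UD

open Pool.Agent.H459.UF (below mem_below below_below exists_above Dns DQ Unr Deg1 Cub fo fb fb_eq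
  fb_self below_self fo_self dns_of_deg1 Sg One irr_of_no_root eval_scale exists_ez fo_scale
  cu cu_monic cu_deg two_of_dns lies_below')
open Pool.Agent.H459.UT (GoodT FamT TOK PKT CndT DatT TCT baseT towerT selMT UG LL
  charzero_cpt sq4)
open Pool.Agent.N874.JM (LocF)
open Pool.Agent.N783.PQ (LocIm)
open Pool.Agent.N783.PF
open Pool.Agent.N61.PF (pol pol_monic pol_natDegree pol_coeff0 pol_coeff1 pol_coeff2 eq_pol fF_eq)
open Pool.Agent.N547.PF (map_eq_X_pow)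
open Pool.Agent.N874.QM (locIm_congr locIm_sq locIm_map)

section tok

/-- The condition at the bad primes. -/
def CB {F : Type} (M : Type) [Field F] [NumberField F] [Field M] [NumberField M] [Algebra F M]
    (m₀ : ℕ) (f : (𝓞 F)[X]) (p : M[X]) : Prop :=
  ∀ w : HeightOneSpectrum (𝓞 M), (m₀ : 𝓞 M) ∈ w.asIdeal → LocF (w.adicCompletion M) (fb M f) p

theorem locF_up {K₁ K₂ : Type} [Field K₁] [NumberField K₁] [Field K₂] [NumberField K₂]
    [Algebra K₁ K₂] {w : HeightOneSpectrum (𝓞 K₂)} {p q : K₁[X]}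
    (h : LocF ((below K₁ w).adicCompletion K₁) p q) :
    LocF (w.adicCompletion K₂) (p.map (algebraMap K₁ K₂)) (q.map (algebraMap K₁ K₂)) := by
  obtain ⟨ι, hι, hι1, hι2⟩ := Pool.Agent.N814.JM.cpl K₁ K₂ (𝓞 K₁) (𝓞 K₂) (below K₁ w) w
    (lies_below' w)
  have h1 := locIm_map ι (show LocIm ((below K₁ w).adicCompletion K₁) _ _ from h)
  have e : ∀ s : K₁[X], (s.map (algebraMap K₁ ((below K₁ w).adicCompletion K₁))).map ι =
      (s.map (algebraMap K₁ K₂)).map (algebraMap K₂ (w.adicCompletion K₂)) := by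
    intro s
    rw [Polynomial.map_map, Polynomial.map_map]
    congr 1
    exact RingHom.ext fun x => hι x
  rw [e, e] at h1
  exact h1

theorem locF_hom {K₁ K₂ : Type} [Field K₁] [NumberField K₁] [Field K₂] [NumberField K₂]
    (φ : K₁ →+* K₂) {m₀ : ℕ} {w : HeightOneSpectrum (𝓞 K₂)} (h2 : (m₀ : 𝓞 K₂) ∈ w.asIdeal)
    {p q : K₁[X]} (h : ∀ w' : HeightOneSpectrum (𝓞 K₁), (m₀ : 𝓞 K₁) ∈ w'.asIdeal →
      LocF (w'.adicCompletion K₁) p q) :
    LocF (w.adicCompletion K₂) (p.map φ) (q.map φ) := by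
  letI : Algebra K₁ K₂ := φ.toAlgebra
  refine locF_up (h (below K₁ w) ?_)
  rw [mem_below, map_natCast]
  exact h2

theorem tokB {F M : Type} [Field F] [NumberField F] [Field M] [NumberField M] [Algebra F M]
    (m₀ : ℕ) (f : (𝓞 F)[X]) : TOK F M f (CB M m₀ f) := by
  refine ⟨?_, ?_, ?_, ?_⟩
  · intro p w hw
    show LocIm (w.adicCompletion M) _ _
    rw [Polynomial.map_pow]
    exact locIm_sq _ _
  · intro p q hp hq w hw
    show LocIm (w.adicCompletion M) _ _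
    rw [Polynomial.map_mul]
    exact Pool.Agent.N891.PQ.LocIm.mul (hp w hw) (hq w hw)
  · intro p q hd hp w hw
    refine locIm_congr ?_ (show LocIm (w.adicCompletion M) _ _ from hp w hw)
    have h3 := Polynomial.map_dvd (algebraMap M (w.adicCompletion M)) hd
    rwa [Polynomial.map_sub] at h3
  · intro τ p hp w hw
    have h1 := locF_hom (τ : M →+* M) hw hp
    have e : (fb M f).map (τ : M →+* M) = fb M f := by
      unfold fb
      rw [Polynomial.map_map]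
      congr 1
      exact RingHom.ext fun x => τ.commutes x
    rwa [e] at h1

end tok

/-- numbers close to one are squares -/
theorem sq_of_mod {M : Type} [Field M] [NumberField M] {w : HeightOneSpectrum (𝓞 M)} {W D : ℕ}
    (hW : (W : 𝓞 M) ∈ w.asIdeal) (hD : D % (8 * W) = 1 % (8 * W)) (hD0 : D ≠ 0) :
    ∃ s : w.adicCompletion M, s ^ 2 = (D : w.adicCompletion M) := by
  haveI := charzero_cpt w
  obtain ⟨t, ht⟩ : ∃ t : ℕ, D = 1 + 8 * W * t := by
    have h1 : 8 * W ∣ D - 1 := (Nat.modEq_iff_dvd' (by omega)).1 hD.symm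
    obtain ⟨t, ht⟩ := h1
    exact ⟨t, by omega⟩
  have hv : Valued.v (Γ₀ := WithZero (Multiplicative ℤ))
      (((8 * W * t : ℕ) : w.adicCompletion M)) <
      Valued.v (Γ₀ := WithZero (Multiplicative ℤ)) (4 : w.adicCompletion M) := by
    have e : ((8 * W * t : ℕ) : w.adicCompletion M) = 4 * ((W : w.adicCompletion M) *
        ((2 * t : ℕ) : w.adicCompletion M)) := by
      push_cast
      ring
    have h4 : Valued.v (Γ₀ := WithZero (Multiplicative ℤ)) (4 : w.adicCompletion M) ≠ 0 :=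
      (Valuation.ne_zero_iff _).2 (by norm_num)
    have hWv : Valued.v (Γ₀ := WithZero (Multiplicative ℤ)) (W : w.adicCompletion M) < 1 := by
      rw [Pool.Agent.H459.UT.val_nat]
      have := (HeightOneSpectrum.valuation_lt_one_iff_mem (K := M) w (W : 𝓞 M)).2 hW
      simpa using this
    have ht1 : Valued.v (Γ₀ := WithZero (Multiplicative ℤ))
        (((2 * t : ℕ) : w.adicCompletion M)) ≤ 1 := Pool.Agent.H459.UT.v_nat_le _ _
    rw [e, map_mul]
    refine mul_lt_of_lt_one_right (zero_lt_iff.2 h4) ?_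
    rw [map_mul]
    exact mul_lt_one_of_lt_of_le hWv ht1
  obtain ⟨s, hs⟩ := sq4 w _ hv
  refine ⟨s, ?_⟩
  rw [pow_two, ← hs, ht]
  push_cast
  ring

/-- The twists are minimal at the good primes. -/
theorem minD {F : Type} [Field F] [NumberField F] {W : ℕ} {S J : Finset ℕ}
    {𝔮 : ℕ → Ideal (𝓞 F)} {r P : ℕ → (𝓞 F)[X]} {f : (𝓞 F)[X]} {Bw : HeightOneSpectrum (𝓞 F) → Prop}
    (hS : GoodS 1 W S 𝔮 r P)
    (hsq : ∀ v, ¬ Bw v → dsc 1 f ∉ v.asIdeal ^ 2)
    (hm : f.Monic) (hd : f.natDegree = 2 * 1 + 1) (hc : ∀ q ∈ S, Cg (sp F q) f (P q)) (hJ : J ⊆ S)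
    {𝔭 : Ideal (𝓞 F)} (hp : 𝔭.IsPrime) (h0 : 𝔭 ≠ ⊥) (hB : ¬ Bw ⟨𝔭, hp, h0⟩) :
    ¬ ∀ j ≤ 2 * 1, (f.scaleRoots ((Dp J : ℕ) : 𝓞 F)).coeff j ∈ 𝔭 ^ (2 * (2 * 1 + 1 - j)) := by
  intro hall
  haveI := hp
  set D : ℕ := Dp J with hD
  have hall' : ∀ j ≤ 2 * 1, f.coeff j * (D : 𝓞 F) ^ (2 * 1 + 1 - j) ∈ 𝔭 ^ (2 * (2 * 1 + 1 - j)) := by
    intro j hj
    have := hall j hj
    rwa [coeff_scaleRoots, hd] at this
  by_cases hD1 : (D : 𝓞 F) ∈ 𝔭
  · -- one of the primes is in `𝔭`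
    have h1 : ∃ q ∈ J, (q : 𝓞 F) ∈ 𝔭 := by
      rw [hD, Dp, Nat.cast_prod] at hD1
      exact (hp.prod_mem_iff).1 hD1
    obtain ⟨q, hqJ, hq𝔭⟩ := h1
    have hqS := hJ hqJ
    obtain ⟨hqp, hWq, hgq, hq8, hq2, h𝔮p, hq𝔮, hrm, hrd, hri, hPm, hPd, hPc, hPr, hPi⟩ := hS q hqS
    have hD' : (D : 𝓞 F) = (q : 𝓞 F) * (∏ q' ∈ J.erase q, (q' : 𝓞 F)) := by
      rw [Finset.mul_prod_erase J (fun q' => (q' : 𝓞 F)) hqJ, hD, Dp, Nat.cast_prod]
    have hrest : (∏ q' ∈ J.erase q, (q' : 𝓞 F)) ∉ 𝔭 := by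
      rw [hp.prod_mem_iff]
      rintro ⟨q', hq', hq'𝔭⟩
      rw [Finset.mem_erase] at hq'
      have hq'p := (hS q' (hJ hq'.2)).1
      have hcop : Nat.Coprime q q' := (Nat.coprime_primes hqp hq'p).2 (Ne.symm hq'.1)
      have h2 : IsCoprime (q : ℤ) (q' : ℤ) := Nat.isCoprime_iff_coprime.2 hcop
      obtain ⟨a, b, hab⟩ := h2
      apply hp.ne_top
      rw [Ideal.eq_top_iff_one]
      have h3 : ((a : 𝓞 F) * (q : 𝓞 F) + (b : 𝓞 F) * (q' : 𝓞 F)) = 1 := by
        exact_mod_cast congrArg (Int.cast : ℤ → 𝓞 F) hab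
      rw [← h3]
      exact 𝔭.add_mem (𝔭.mul_mem_left _ hq𝔭) (𝔭.mul_mem_left _ hq'𝔭)
    have hD2 : (D : 𝓞 F) ∉ 𝔭 ^ 2 := by
      intro h
      rw [hD', mul_comm] at h
      rcases Ideal.IsPrime.mul_mem_pow 𝔭 h with h' | h'
      · exact hrest h'
      · exact hq2 𝔭 hp h'
    have hco : ∀ j < 2 * 1 + 1, f.coeff j ∈ 𝔭 := by
      intro j hj
      have h2 := hall' j (by omega)
      by_contra hcon
      rcases Ideal.IsPrime.mul_mem_pow 𝔭 h2 with h' | h'
      · exact hcon h'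
      · apply hD2
        rw [pow_mul, ← Ideal.span_singleton_le_iff_mem, ← Ideal.span_singleton_pow,
          ← Ideal.dvd_iff_le, UniqueFactorizationMonoid.pow_dvd_pow_iff_dvd (by omega),
          Ideal.dvd_iff_le, Ideal.span_singleton_le_iff_mem] at h'
        exact h'
    have hf : rd 𝔭 f = X ^ (2 * 1 + 1) := map_eq_X_pow _ f _ hm hd fun j hj =>
      Ideal.Quotient.eq_zero_iff_mem.2 (hco j hj)
    have hle : sp F q ≤ 𝔭 := by rwa [sp, Ideal.span_singleton_le_iff_mem]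
    have hfP : rd 𝔭 f = rd 𝔭 (P q) := by
      ext j
      rw [coeff_map, coeff_map]
      exact (Ideal.Quotient.mk_eq_mk_iff_sub_mem _ _).mpr (hle (hc q hqS j))
    haveI : Nontrivial (𝓞 F ⧸ 𝔭) := Ideal.Quotient.nontrivial_iff.mpr hp.ne_top
    haveI : IsDomain (𝓞 F ⧸ 𝔭) := Ideal.Quotient.isDomain 𝔭
    by_cases h𝔭 : 𝔭 = 𝔮 q
    · have h3 : rd 𝔭 (P q) = X * rd 𝔭 (r q) := by
        rw [rd, rd, ← map_X (Ideal.Quotient.mk 𝔭), ← Polynomial.map_mul]
        ext j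
        rw [coeff_map, coeff_map]
        exact (Ideal.Quotient.mk_eq_mk_iff_sub_mem _ _).mpr (h𝔭 ▸ hPr j)
      have h4 : rd 𝔭 (r q) = X ^ (2 * 1) := by
        have h5 : (X : (𝓞 F ⧸ 𝔭)[X]) * rd 𝔭 (r q) = X * X ^ (2 * 1) := by
          rw [← h3, ← hfP, hf, pow_succ, mul_comm]
        exact mul_left_cancel₀ X_ne_zero h5
      rw [← h𝔭, h4] at hri
      exact not_irreducible_pow (by omega) hri
    · have h6 := hPi 𝔭 hp hq𝔭 h𝔭
      rw [← hfP, hf] at h6
      exact not_irreducible_pow (by omega) h6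
  · -- `D` is a unit modulo `𝔭`
    have hco : ∀ j < 2 * 1 + 1, f.coeff j ∈ 𝔭 ^ 2 := by
      intro j hj
      have h2 := hall' j (by omega)
      have h3 : (D : 𝓞 F) ^ (2 * 1 + 1 - j) ∉ 𝔭 := fun h => hD1 (hp.mem_of_pow_mem _ h)
      rw [mul_comm (f.coeff j)] at h2
      rcases Ideal.IsPrime.mul_mem_pow 𝔭 h2 with h' | h'
      · exact absurd h' h3
      · exact Ideal.pow_le_pow_right (by omega) h'
    have hf : f.map (Ideal.Quotient.mk (𝔭 ^ 2)) = X ^ (2 * 1 + 1) := map_eq_X_pow _ f _ hm hd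
      fun j hj => Ideal.Quotient.eq_zero_iff_mem.2 (hco j hj)
    apply hsq ⟨𝔭, hp, h0⟩ hB
    show dsc 1 f ∈ 𝔭 ^ 2
    rw [← Ideal.Quotient.eq_zero_iff_mem, dsc, ← resultant_map_map, ← derivative_map, hf,
      resultant_X_pow_left]
    · rw [derivative_X_pow, coeff_C_mul, coeff_X_pow, if_neg (by omega), mul_zero,
        zero_pow (by omega)]
    · rw [derivative_X_pow]
      refine (natDegree_C_mul_le _ _).trans ?_
      refine (natDegree_X_pow_le _).trans (by omega)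

/-- The conditions on the extension `M`. -/
structure AdmF (F M : Type) [Field F] [NumberField F] [Field M] [NumberField M] [Algebra F M]
    (Z : Set (HeightOneSpectrum (𝓞 F))) (m₀ : ℕ) (f : (𝓞 F)[X]) : Prop where
  sig : ∀ v ∈ Z, Unr F M v ∧ Deg1 F M v
  bad : ∀ v : HeightOneSpectrum (𝓞 F), (m₀ : 𝓞 F) ∈ v.asIdeal → Unr F M v ∧ Deg1 F M v
  unr : ∀ v : HeightOneSpectrum (𝓞 F), (∃ t : 𝓞 F, f.eval t ∈ v.asIdeal) → Unr F M v
  real : ∀ σ : F →+* ℝ, 0 < σ ((4 * (f.coeff 1) ^ 3 + 27 * (f.coeff 0) ^ 2 : 𝓞 F) : F) ∨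
    ∃ ρ : M →+* ℝ, ρ.comp (algebraMap F M) = σ

theorem pol_scale {F : Type} [Field F] [NumberField F] (a b D : 𝓞 F) :
    (pol a b).scaleRoots D = pol (a * D ^ 2) (b * D ^ 3) := by
  refine Polynomial.ext fun j => ?_
  rw [coeff_scaleRoots, pol_natDegree]
  rcases j with _ | _ | _ | _ | j
  · rw [pol_coeff0, pol_coeff0]
  · rw [pol_coeff1, pol_coeff1]
  · rw [pol_coeff2, pol_coeff2, zero_mul]
  · have h1 := (pol_monic a b).coeff_natDegree
    have h2 := (pol_monic (a * D ^ 2) (b * D ^ 3)).coeff_natDegree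
    rw [pol_natDegree] at h1 h2
    show (pol a b).coeff 3 * D ^ (3 - 3) = (pol (a * D ^ 2) (b * D ^ 3)).coeff 3
    rw [h1, h2]
    simp
  · rw [coeff_eq_zero_of_natDegree_lt (by rw [pol_natDegree]; omega),
      coeff_eq_zero_of_natDegree_lt (by rw [pol_natDegree]; omega), zero_mul]

/-- From the absence of bad elements to a twist with zero 2-Selmer groups over all the
extensions. -/
theorem twD (F : Type) [Field F] [NumberField F] : ∃ κ : ℕ,
    ∀ (B N W m₀ : ℕ) (f₁ : (𝓞 F)[X]) (S : Finset ℕ)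
    (𝔮 : ℕ → Ideal (𝓞 F)) (r P : ℕ → (𝓞 F)[X]) (f : (𝓞 F)[X]), κ ≤ W → m₀ ≠ 0 → 2 ∣ m₀ → m₀ ∣ W →
    GoodT 1 W (fun v => (m₀ : 𝓞 F) ∈ v.asIdeal) f₁ → GoodS 1 W S 𝔮 r P →
    (∀ q ∈ S, q % (8 * W) = 1 % (8 * W)) →
    FamT 1 B W (fun v => (m₀ : 𝓞 F) ∈ v.asIdeal) f₁ S P f →
    2 ^ κ * B ≤ 4 ^ N → 1 ≤ B → ¬ LBad 1 N κ S 𝔮 P f → Irreducible (fF f) →
    ∀ (a b : 𝓞 F), f.coeff 1 = 16 * a → f.coeff 0 = 64 * b →
    ∃ J ⊆ S, Irreducible (fF ((pol a b).scaleRoots ((Dp J : ℕ) : 𝓞 F))) ∧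
      (∀ (𝔭 : Ideal (𝓞 F)), 𝔭.IsPrime → 𝔭 ≠ ⊥ → (m₀ : 𝓞 F) ∉ 𝔭 →
        ¬ ∀ j ≤ 2 * 1, ((pol a b).scaleRoots ((Dp J : ℕ) : 𝓞 F)).coeff j ∈
          𝔭 ^ (2 * (2 * 1 + 1 - j))) ∧
      ∀ (M : Type) [Field M] [NumberField M] [Algebra F M] [IsGalois F M] (n : ℕ),
        Module.finrank F M = 2 ^ n →
        AdmF F M {v | ∃ q ∈ S, v.asIdeal = 𝔮 q} m₀ ((pol a b).scaleRoots ((Dp J : ℕ) : 𝓞 F)) →
        SelZero (fo M ((pol a b).scaleRoots ((Dp J : ℕ) : 𝓞 F))) := by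
  obtain ⟨κ₁, hκ₁⟩ := Pool.Agent.H459.UT.core 1 F le_rfl
  obtain ⟨κ₂, hκ₂⟩ := Pool.Agent.H459.UT.sqf 1 F le_rfl
  refine ⟨max κ₁ κ₂, fun B N W m₀ f₁ S 𝔮 r P f hW hm₀ h2m hmW hf₁ hS hSW hF hBN hB hnb hirr a b
    ha hb => ?_⟩
  have hBN1 : 2 ^ κ₁ * B ≤ 4 ^ N :=
    (Nat.mul_le_mul_right _ (Nat.pow_le_pow_right (by norm_num) (le_max_left _ _))).trans hBN
  have hBN2 : 2 ^ κ₂ * B ≤ 4 ^ N :=
    (Nat.mul_le_mul_right _ (Nat.pow_le_pow_right (by norm_num) (le_max_right _ _))).trans hBN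
  have hnb1 : ¬ LBad 1 N κ₁ S 𝔮 P f := fun h =>
    hnb (Pool.Agent.N170.PF.LBad.mono (le_max_left _ _) h)
  have hnb2 : ¬ LBad 1 N κ₂ S 𝔮 P f := fun h =>
    hnb (Pool.Agent.N170.PF.LBad.mono (le_max_right _ _) h)
  have hm := hF.ht.mon
  have hd : f.natDegree = 3 := hF.ht.deg
  obtain ⟨Bw, hBw⟩ : ∃ Bw : HeightOneSpectrum (𝓞 F) → Prop, Bw = fun v => (m₀ : 𝓞 F) ∈ v.asIdeal :=
    ⟨_, rfl⟩
  have hBwv : ∀ v, Bw v ↔ (m₀ : 𝓞 F) ∈ v.asIdeal := by
    intro v
    rw [hBw]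
  have hB2 : ∀ v, ¬ Bw v → (2 : 𝓞 F) ∉ v.asIdeal := by
    intro v hv h2
    apply hv
    rw [hBwv]
    obtain ⟨d, hd⟩ := h2m
    rw [hd, Nat.cast_mul]
    exact Ideal.mul_mem_right _ _ (by exact_mod_cast h2)
  rw [← hBw] at hf₁ hF
  have hsq := hκ₂ B N W Bw f₁ S 𝔮 r P f ((le_max_right _ _).trans hW)
    hS hF hirr hBN2 hnb2 hB2
  obtain ⟨L, _, _, _, θ, hc⟩ := Pool.Agent.N667.PF.gen F 1 f hm hd hirr
  have hfcu : fF f = cu (f.coeff 1 : F) (f.coeff 0 : F) := by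
    rw [fF_eq hF.ht]
  have hqp : ∀ q ∈ S, q.Prime := fun q hq => (hS q hq).1
  have hqB : ∀ q ∈ S, ∀ w, Bw w → (q : 𝓞 F) ∉ w.asIdeal := by
    intro q hq w hw hqw
    rw [hBwv] at hw
    obtain ⟨a1, a2, a3, a4, -⟩ := hS q hq
    have hWw : (W : 𝓞 F) ∈ w.asIdeal := by
      obtain ⟨d, hd⟩ := hmW
      rw [hd, Nat.cast_mul]
      exact Ideal.mul_mem_right _ _ hw
    have hco : Nat.Coprime q W := by
      rw [Nat.Prime.coprime_iff_not_dvd a1]
      intro hdv
      have := Nat.le_of_dvd hf₁.pos hdv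
      omega
    obtain ⟨u, v, huv⟩ := (Nat.isCoprime_iff_coprime.2 hco)
    apply w.isPrime.ne_top
    rw [Ideal.eq_top_iff_one]
    have e : (1 : 𝓞 F) = (u : 𝓞 F) * (q : 𝓞 F) + (v : 𝓞 F) * (W : 𝓞 F) := by
      exact_mod_cast (congrArg (fun z : ℤ => (z : 𝓞 F)) huv).symm
    rw [e]
    exact Ideal.add_mem _ (Ideal.mul_mem_left _ _ hqw) (Ideal.mul_mem_left _ _ hWw)
  obtain ⟨Q, hQ⟩ : ∃ Q : F[X] → Prop, Q = CB F m₀ f := ⟨_, rfl⟩
  have hTOF : TOK F F f (CB F m₀ f) := tokB m₀ f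
  have hQm : ∀ h h' : F[X], Q h → Q h' → Q (h * h') := by
    rw [hQ]
    exact hTOF.mul
  have hQ1 : Q 1 := by
    rw [hQ]
    have := hTOF.sq 1
    rwa [one_pow] at this
  have hLL : ∀ h : F[X], aeval θ h ≠ 0 → IsSquare (Algebra.norm F (aeval θ h)) → Q h →
      ∀ w : HeightOneSpectrum (𝓞 F), Bw w →
      ∃ (G : Pool.Agent.N352.PJ.Mt 1 (w.adicCompletion F))
        (lam lam₁ : L → Fin (2 * 1 + 1) → w.adicCompletion F),
        UG G ∧ LL hc w (aeval θ h) G lam ∧ LL hc w 1 G lam₁ := by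
    have key : ∀ h : F[X], aeval θ h ≠ 0 → Q h → ∀ w : HeightOneSpectrum (𝓞 F), Bw w →
        ∃ lam, LL hc w (aeval θ h) (GA (w.adicCompletion F)) lam := by
      intro h h0 hh w hw
      rw [hQ] at hh
      have h1 := hh w ((hBwv w).1 hw)
      rw [fb_self] at h1
      exact ll_pt hc w hfcu hirr (a := (a : F)) (b := (b : F)) (by rw [ha]; push_cast; rfl)
        (by rw [hb]; push_cast; rfl) (w.valuation_le_one a) (w.valuation_le_one b) h0 h1
    intro h h0 hN hh w hw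
    obtain ⟨lam, hlam⟩ := key h h0 hh w hw
    obtain ⟨lam₁, hlam₁⟩ := key 1 (by rw [map_one]; exact one_ne_zero) hQ1 w hw
    rw [map_one] at hlam₁
    exact ⟨GA _, lam, lam₁, ug_ga w, hlam, hlam₁⟩
  have hfinB : {w | Bw w}.Finite := by
    have h1 : ({w | Bw w} : Set (HeightOneSpectrum (𝓞 F))) = {w | (m₀ : 𝓞 F) ∈ w.asIdeal} := by
      ext w
      exact hBwv w
    rw [h1]
    exact Pool.Agent.N644.PQ.HunC.finite_over (m₀ : 𝓞 F) (by exact_mod_cast hm₀)
  obtain ⟨J, hJ, hcore⟩ := hκ₁ L f θ B N W S 𝔮 r P Bw Q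
    ((le_max_left _ _).trans hW) hc hfinB
    (fun v hv => ⟨hB2 v hv, hsq v hv⟩) hqB hS hF.ht hF.con hBN1 hnb1 hQ1 hQm hLL
  obtain ⟨D, hD⟩ : ∃ D : ℕ, D = Dp J := ⟨_, rfl⟩
  have hD0 : D ≠ 0 := by
    rw [hD, Dp, Finset.prod_ne_zero_iff]
    exact fun q hq => (hS q (hJ hq)).1.ne_zero
  -- the unscaled polynomial
  obtain ⟨f', hf'⟩ : ∃ f', f' = pol a b := ⟨_, rfl⟩
  have hm' : f'.Monic := by rw [hf']; exact pol_monic a b
  have hd' : f'.natDegree = 3 := by rw [hf']; exact pol_natDegree a b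
  have hff' : f = f'.scaleRoots ((4 : ℕ) : 𝓞 F) := by
    have e0 := eq_pol hF.ht
    rw [hf', pol_scale]
    conv_lhs => rw [e0, ha, hb]
    congr 1 <;> push_cast <;> ring
  have hfD : (f.scaleRoots (D : 𝓞 F)) = (f'.scaleRoots (D : 𝓞 F)).scaleRoots ((4 : ℕ) : 𝓞 F) := by
    rw [hff', ← scaleRoots_mul, ← scaleRoots_mul, mul_comm]
  rw [← hf']
  refine ⟨J, hJ, ?_⟩
  rw [← hD]
  have hirr' : Irreducible (fF f') := by
    have h1 := hirr
    rw [hff', Pool.Agent.N170.PF.fF_scale hm'] at h1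
    have h2 := Pool.Agent.N170.PF.irr_scale (D := (4 : F)⁻¹) (inv_ne_zero (by norm_num)) h1
    rw [← scaleRoots_mul] at h2
    have e : (((4 : ℕ) : F) * 4⁻¹) = 1 := by norm_num
    rw [e, scaleRoots_one] at h2
    exact h2
  refine ⟨?_, ?_, ?_⟩
  · rw [Pool.Agent.N170.PF.fF_scale hm']
    exact Pool.Agent.N170.PF.irr_scale (Nat.cast_ne_zero.2 hD0) hirr'
  · intro 𝔭 hp h0 hmp hall
    refine minD hS hsq hm hd hF.con hJ hp h0 (by rw [hBwv]; exact hmp) fun j hj => ?_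
    rw [← hD, hfD, coeff_scaleRoots, natDegree_scaleRoots, hd']
    exact Ideal.mul_mem_right _ _ (hall j hj)
  · intro M _ _ _ _ n hn hA
    have hDQ : DQ F M J 𝔮 := by
      intro q hq w hw
      obtain ⟨h1, h2⟩ := hA.sig (below F w) ⟨q, hJ hq, hw⟩
      exact dns_of_deg1 h1 h2
    have hcQ : ∀ q ∈ S, Cg (𝔮 q) f (X * r q) := by
      intro q hq j
      obtain ⟨-, -, -, -, -, -, a2, -, -, -, -, -, -, a3, -⟩ := hS q hq
      have b1 := Pool.Agent.N78.PF.sp_le (F := F) a2 (hF.con q hq j)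
      have b2 := a3 j
      have := Ideal.add_mem _ b1 b2
      simpa using this
    have hPK : PKT F F M Bw (CB M m₀ f) f J 𝔮 := by
      refine baseT (fun v hv => ⟨hB2 v hv, hsq v hv⟩) le_rfl hm hd hS hF.con hJ hqB M (CB M m₀ f) Q
        ?_ L θ hc hcore
      intro h h0 hN hT
      rw [hQ]
      intro v hv
      obtain ⟨w, rfl⟩ := exists_above (K := F) M v
      have hw : (m₀ : 𝓞 M) ∈ w.asIdeal := by
        have := (mem_below w _).1 hv
        rwa [map_natCast] at this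
      obtain ⟨h1, h2⟩ := hA.bad _ hv
      exact two_of_dns (F := F) (dns_of_deg1 h1 h2) (hT w hw)
    have H : DatT f J 𝔮 := ⟨hm, 1, W, S, r, P, le_rfl, hd, hS, hcQ, hJ⟩
    have hT : TCT F F M Bw f J 𝔮 := by
      refine ⟨?_, hDQ, ?_⟩
      · intro v hv
        rw [below_self] at hv
        rw [fo_self]
        by_cases ht : ∃ t : 𝓞 F, (f'.scaleRoots (D : 𝓞 F)).eval t ∈ v.asIdeal
        · exact Or.inl (hA.unr v ht)
        · refine Or.inr (irr_of_no_root hm hd v fun t htv => ht ?_)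
          have h4v : ((4 : ℕ) : 𝓞 F) ∉ v.asIdeal := by
            intro h4
            have e : ((4 : ℕ) : 𝓞 F) = 2 * 2 := by norm_num
            rw [e] at h4
            rcases v.isPrime.mem_or_mem h4 with h | h
            · exact hB2 v hv h
            · exact hB2 v hv h
          obtain ⟨t', ht'⟩ := exists_sol h4v t
          have h5 : f.eval (((4 : ℕ) : 𝓞 F) * t') ∈ v.asIdeal := by
            have h6 := Ideal.mem_of_dvd v.asIdeal
              (sub_dvd_eval_sub (((4 : ℕ) : 𝓞 F) * t') t f) ht'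
            have h7 := Ideal.add_mem _ h6 htv
            rwa [sub_add_cancel] at h7
          rw [hff', eval_scale hd'] at h5
          have h8 : f'.eval t' ∈ v.asIdeal := by
            rcases v.isPrime.mem_or_mem h5 with h | h
            · exact absurd (v.isPrime.mem_of_pow_mem _ h) h4v
            · exact h
          refine ⟨(D : 𝓞 F) * t', ?_⟩
          rw [eval_scale hd']
          exact Ideal.mul_mem_left _ _ h8
      · intro σ
        rcases hA.real σ with h | h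
        · refine Or.inr ?_
          have hσ : σ.comp (algebraMap F F) = σ := by
            rw [Algebra.algebraMap_self, RingHom.comp_id]
          rw [hσ]
          have e1 : (f'.scaleRoots (D : 𝓞 F)).coeff 1 = a * (D : 𝓞 F) ^ 2 := by
            rw [hf', pol_scale, pol_coeff1]
          have e0 : (f'.scaleRoots (D : 𝓞 F)).coeff 0 = b * (D : 𝓞 F) ^ 3 := by
            rw [hf', pol_scale, pol_coeff0]
          rw [e1, e0] at h
          have e : σ ((4 * (a * (D : 𝓞 F) ^ 2) ^ 3 +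
              27 * (b * (D : 𝓞 F) ^ 3) ^ 2 : 𝓞 F) : F) =
              (D : ℝ) ^ 6 * (4 * (σ (a : F)) ^ 3 + 27 * (σ (b : F)) ^ 2) := by
            push_cast
            simp only [map_add, map_mul, map_pow, map_ofNat, map_natCast]
            ring
          rw [e] at h
          have hDp : (0 : ℝ) < (D : ℝ) ^ 6 := by
            have : (0 : ℝ) < D := by exact_mod_cast Nat.pos_of_ne_zero hD0
            positivity
          have h9 : 0 < 4 * (σ (a : F)) ^ 3 + 27 * (σ (b : F)) ^ 2 :=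
            (mul_pos_iff_of_pos_left hDp).1 h
          have h5 : 0 < 4 * (σ (f.coeff 1 : F)) ^ 3 + 27 * (σ (f.coeff 0 : F)) ^ 2 := by
            rw [ha, hb]
            push_cast
            simp only [map_mul, map_ofNat]
            have e3 : 4 * (16 * σ (a : F)) ^ 3 + 27 * (64 * σ (b : F)) ^ 2 =
                4096 * (4 * (σ (a : F)) ^ 3 + 27 * (σ (b : F)) ^ 2) := by ring
            rw [e3]
            positivity
          obtain ⟨e, z, hz, he, hze⟩ := exists_ez h5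
          have hmapf : (fF f).map σ = X ^ 3 + C (σ (f.coeff 1 : F)) * X +
              C (σ (f.coeff 0 : F)) := by
            rw [fF_eq hF.ht]
            simp
          refine ⟨e, z, hz, ?_, ?_⟩
          · rw [hmapf]
            simpa using he
          · rw [hmapf]
            simpa using hze
        · exact Or.inl h
    have hMK := towerT H (tokB m₀ f) hd n F hn hT hPK
    have hirrM : Irreducible (fb M f) :=
      Pool.Agent.N874.JM.irr_up hn hirr (hm.map _) (by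
        rw [hm.natDegree_map, hd]
        decide)
    have hDW : D % (8 * W) = 1 % (8 * W) := by
      rw [hD]
      have : ∀ T : Finset ℕ, T ⊆ S → (∏ q ∈ T, q) ≡ 1 [MOD 8 * W] := by
        intro T
        induction T using Finset.induction_on with
        | empty => intro _; rfl
        | insert a T ha ih =>
          intro hT
          rw [Finset.prod_insert ha]
          have h1 : a ≡ 1 [MOD 8 * W] := hSW a (hT (Finset.mem_insert_self _ _))
          have h2 := h1.mul (ih fun x hx => hT (Finset.mem_insert_of_mem hx))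
          simpa using h2
      exact this J hJ
    have h6 := selMT H hMK hDQ hirrM hB2 (by
      intro w hw
      rw [hBwv] at hw
      have hw' : (W : 𝓞 M) ∈ w.asIdeal := by
        obtain ⟨d, hd⟩ := hmW
        have h1 := (mem_below w _).1 hw
        rw [map_natCast] at h1
        rw [hd, Nat.cast_mul]
        exact Ideal.mul_mem_right _ _ h1
      rw [← hD]
      exact sq_of_mod hw' hDW hD0) (by
      intro p hp w hw
      refine hp w ?_
      rw [hBwv, mem_below, map_natCast]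
      exact hw)
    rw [← hD, fo_scale hm, hfD, ← fo_scale ((monic_scaleRoots_iff _).2 hm')] at h6
    obtain ⟨A', hA'⟩ : ∃ A' : M, A' = algebraMap F M ((a * (D : 𝓞 F) ^ 2 : 𝓞 F) : F) := ⟨_, rfl⟩
    obtain ⟨B', hB'⟩ : ∃ B' : M, B' = algebraMap F M ((b * (D : 𝓞 F) ^ 3 : 𝓞 F) : F) := ⟨_, rfl⟩
    refine sel_scale (A := A') (B := B') (((monic_scaleRoots_iff _).2 hm').map _) ?_ h6
    have e9 : fF (fo M (f'.scaleRoots (D : 𝓞 F))) = fb M (f'.scaleRoots (D : 𝓞 F)) :=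
      (fb_eq M _).symm
    rw [e9, hf', pol_scale]
    unfold fb pol cu fF
    rw [hA', hB']
    simp

end Pool.Agent.H459.UD
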